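import Pool.Agent.TW4.So.Perm

/-! Soundness of the constraints on the neighbourhood of the new vertex. -/

namespace Pool.Agent.TW4.So

open Pool.Agent.TW4 Pool.Agent.TW4.Sm

theorem LT_bit {t j : ℕ} (ht : t < 12) (hj : j < 1024) :
    LT.testBit (1024 * t + j) = Nat.ble (pop j) t := by
  have h : ∀ t : Fin 12, ∀ j : Fin 1024, LT.testBit (1024 * t + j) = Nat.ble (pop j) t := by
    decide +kernel
  exact h ⟨t, ht⟩ ⟨j, hj⟩

theorem CT_lt : CT < 2 ^ 10240 := by decide +kernel

theorem cw_bit {V w N : ℕ} (hN : N < 1024) :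
    (cw V w).testBit N = true ↔ V.testBit N = true ∧ N.testBit w = true := by
  have h : cw V w = V &&& (CT >>> (1024 * w)) := rfl
  rw [h, Nat.testBit_and, Bool.and_eq_true, Nat.testBit_shiftRight]
  by_cases hw : w < 10
  · rw [CT_bit hw hN]
  · have h1 : CT.testBit (1024 * w + N) = false := by
      apply Nat.testBit_lt_two_pow
      exact lt_of_lt_of_le CT_lt (Nat.pow_le_pow_right (by norm_num) (by omega))
    have h2 : N.testBit w = false := by
      apply Nat.testBit_lt_two_pow
      exact lt_of_lt_of_le hN (show 2 ^ 10 ≤ 2 ^ w from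
        Nat.pow_le_pow_right (by norm_num) (by omega))
    rw [h1, h2]

theorem le_bit {V t N : ℕ} (ht : t < 12) (hN : N < 1024) :
    (le V t).testBit N = true ↔ V.testBit N = true ∧ pop N ≤ t := by
  have h : le V t = V &&& (LT >>> (1024 * t)) := rfl
  rw [h, Nat.testBit_and, Bool.and_eq_true, Nat.testBit_shiftRight, LT_bit ht hN]
  constructor
  · rintro ⟨h1, h2⟩
    exact ⟨h1, Nat.le_of_ble_eq_true h2⟩
  · rintro ⟨h1, h2⟩
    exact ⟨h1, Nat.ble_eq_true_of_le h2⟩

theorem fullM_bit {n N : ℕ} (hN : N < 2 ^ n) : (fullM n).testBit N = true := by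
  have h : fullM n = 2 ^ 2 ^ n - 1 := by
    show Nat.sub (Nat.shiftLeft 1 (Nat.shiftLeft 1 n)) 1 = _
    rw [one_shl, one_shl]
    rfl
  rw [h, Nat.testBit_two_pow_sub_one]
  simpa using hN

theorem lt1024 {n N : ℕ} (hn : n ≤ 10) (hN : N < 2 ^ n) : N < 1024 :=
  lt_of_lt_of_le hN (Nat.pow_le_pow_right (by norm_num) hn)

theorem V0_bit {n N : ℕ} (hn : n ≤ 10) (hN : N < 2 ^ n) (h3 : 3 ≤ pop N) (h5 : pop N ≤ 5) :
    (V0 n).testBit N = true := by
  have h : V0 n = (le (fullM n) 5) ^^^ (le (fullM n) 2) := rfl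
  have hN' := lt1024 hn hN
  have h1 : (le (fullM n) 5).testBit N = true :=
    (le_bit (by norm_num) hN').2 ⟨fullM_bit hN, h5⟩
  have h2 : (le (fullM n) 2).testBit N = false := by
    by_contra hcon
    have := ((le_bit (V := fullM n) (t := 2) (by norm_num) hN').1 (by simpa using hcon)).2
    omega
  rw [h, Nat.testBit_xor, h1, h2]
  rfl

theorem xor_sub_bit {V W N : ℕ} (hV : V.testBit N = true) (hW : ¬ W.testBit N = true) :
    (Nat.xor V W).testBit N = true := by
  show (V ^^^ W).testBit N = true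
  rw [Nat.testBit_xor, hV]
  simp [hW]

theorem xor_one_bit {V N M : ℕ} (hV : V.testBit N = true) (hne : N ≠ M) :
    (Nat.xor V (Nat.shiftLeft 1 M)).testBit N = true := by
  refine xor_sub_bit hV ?_
  rw [one_shl, Nat.testBit_two_pow]
  simpa using Ne.symm hne

/-! the graph with the new vertex -/

theorem adj_cc {n R N : ℕ} (hn : n < 10) (hR : Rng n R) (hN : N < 2 ^ n)
    {G : SimpleGraph (Fin (n + 1))} {H : SimpleGraph (Fin n)} (hG : Mat (n + 1) (ext R n N) G)
    (hH : Mat n R H) (i j : Fin n) : G.Adj i.castSucc j.castSucc ↔ H.Adj i j := by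
  have hi := i.2
  have hj := j.2
  rw [hG, hH]
  simp only [Fin.val_castSucc]
  rw [ext_bit hn hR hN _ _ hi.le hj.le]
  constructor
  · rintro (h | h | h)
    · exact h.2.2
    · omega
    · omega
  · intro h
    exact Or.inl ⟨hi, hj, h⟩

theorem adj_cl {n R N : ℕ} (hn : n < 10) (hR : Rng n R) (hN : N < 2 ^ n)
    {G : SimpleGraph (Fin (n + 1))} (hG : Mat (n + 1) (ext R n N) G) (i : Fin n) :
    G.Adj i.castSucc (Fin.last n) ↔ N.testBit i = true := by
  have hi := i.2
  rw [hG]
  simp only [Fin.val_castSucc, Fin.val_last]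
  rw [ext_bit hn hR hN _ _ hi.le le_rfl]
  constructor
  · rintro (h | h | h)
    · omega
    · omega
    · exact h.2.2
  · intro h
    exact Or.inr (Or.inr ⟨hi, rfl, h⟩)

/-- what is needed of the neighbourhood N of the new vertex -/
structure Ok (n R N : ℕ) (G : SimpleGraph (Fin (n + 1))) (H : SimpleGraph (Fin n)) : Prop where
  lt : N < 2 ^ n
  mat : Mat (n + 1) (ext R n N) G
  matH : Mat n R H
  good : ∀ u, ¬ Bad G u
  min : ∀ x, dg G (Fin.last n) ≤ dg G x
  three : 3 ≤ pop N
  five : pop N ≤ 5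

theorem conA_spec {n R V w N : ℕ} (hn : n < 10) (hR : Rng n R) (hN : N < 2 ^ n)
    {H : SimpleGraph (Fin n)} (hH : Mat n R H)
    (hmin : ∀ w : Fin n, pop N ≤ dg H w + if N.testBit w = true then 1 else 0)
    (hV : V.testBit N = true) : (conA n R V w).testBit N = true := by
  have h0 : conA n R V w = cond (Nat.ble (Nat.succ w) n)
    (Nat.lor (le V (deg R w)) (cw (le V (Nat.succ (deg R w))) w)) V := rfl
  rw [h0]
  cases hw : Nat.ble (Nat.succ w) n with
  | false => exact hV
  | true =>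
    have hw' : w < n := Nat.le_of_ble_eq_true hw
    have hN' := lt1024 hn.le hN
    have hd := deg_spec hn.le hR hH ⟨w, hw'⟩
    have hdle : deg R w ≤ n := by
      rw [show deg R w = dg H ⟨w, hw'⟩ from hd]
      classical
      unfold dg
      refine (Finset.card_le_univ _).trans ?_
      simp
    have h1 := hmin ⟨w, hw'⟩
    rw [← hd] at h1
    simp only at h1
    rw [cond_true]
    show ((le V (deg R w)) ||| (cw (le V (Nat.succ (deg R w))) w)).testBit N = true
    rw [Nat.testBit_or, Bool.or_eq_true, cw_bit hN', le_bit (by omega) hN',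
      le_bit (by omega) hN']
    by_cases hb : N.testBit w = true
    · simp only [hb, if_true] at h1
      exact Or.inr ⟨⟨hV, h1⟩, hb⟩
    · simp only [hb] at h1
      exact Or.inl ⟨hV, by simpa using h1⟩

theorem Ok.hmin {n R N : ℕ} (hn : n < 10) (hR : Rng n R) {G : SimpleGraph (Fin (n + 1))}
    {H : SimpleGraph (Fin n)} (ok : Ok n R N G H) (w : Fin n) :
    pop N ≤ dg H w + if N.testBit w = true then 1 else 0 := by
  have h1 := ok.min w.castSucc
  rw [dg_last hn.le ok.lt (adj_cl hn hR ok.lt ok.mat),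
    dg_castSucc (adj_cc hn hR ok.lt ok.mat ok.matH) (adj_cl hn hR ok.lt ok.mat)] at h1
  exact h1

theorem ae_spec {n R a b : ℕ} {H : SimpleGraph (Fin n)} (hH : Mat n R H)
    (h : ae R a b = true) (ha : a < n) (hb : b < n) :
    (a = b) ∨ (H.Adj ⟨a, ha⟩ ⟨b, hb⟩) := by
  rcases Bool.or_eq_true_iff.1 (show or (Nat.beq a b) (tb R (Nat.add (Nat.mul 16 a) b)) = true
    from h) with h1 | h1
  · exact Or.inl (Nat.eq_of_beq_eq_true h1)
  · rw [tb_eq] at h1
    exact Or.inr ((hH ⟨a, ha⟩ ⟨b, hb⟩).2 h1)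

/-- digits w, x, a, b, c of e -/
theorem badF_spec {n R e : ℕ} (hn : n ≤ 10) {H : SimpleGraph (Fin n)} (hH : Mat n R H)
    (h : badF n R e = true) : ∃ hw : nib e 0 < n,
      H.IsClique {a | H.Adj ⟨nib e 0, hw⟩ a ∧ (a : ℕ) ≠ nib e 1} ∧
      {a | H.Adj ⟨nib e 0, hw⟩ a ∧ (a : ℕ) ≠ nib e 1}.encard ≤ 3 := by
  obtain ⟨h1, h2⟩ := Bool.and_eq_true_iff.1 (show and (and (Nat.ble (Nat.succ (nib e 0)) n)
    (Nat.beq (Nat.land (rowx R (nib e 0) (nib e 1))
      (Nat.lor (Nat.lor (Nat.shiftLeft 1 (nib e 2)) (Nat.shiftLeft 1 (nib e 3)))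
        (Nat.shiftLeft 1 (nib e 4)))) (rowx R (nib e 0) (nib e 1))))
    (and (ae R (nib e 2) (nib e 3)) (and (ae R (nib e 2) (nib e 4)) (ae R (nib e 3) (nib e 4))))
      = true from h)
  obtain ⟨h3, h4⟩ := Bool.and_eq_true_iff.1 h1
  obtain ⟨h5, h6⟩ := Bool.and_eq_true_iff.1 h2
  obtain ⟨h7, h8⟩ := Bool.and_eq_true_iff.1 h6
  have hw : nib e 0 < n := Nat.le_of_ble_eq_true h3
  have h9 := Nat.eq_of_beq_eq_true h4
  rw [one_shl, one_shl, one_shl] at h9
  have h9' : (rowx R (nib e 0) (nib e 1)) &&& ((2 ^ nib e 2 ||| 2 ^ nib e 3) ||| 2 ^ nib e 4) =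
    rowx R (nib e 0) (nib e 1) := h9
  have hsub : ∀ a : Fin n, (H.Adj ⟨nib e 0, hw⟩ a ∧ (a : ℕ) ≠ nib e 1) →
      (a : ℕ) = nib e 2 ∨ (a : ℕ) = nib e 3 ∨ (a : ℕ) = nib e 4 := by
    rintro a ⟨ha, hax⟩
    have hb : (rowx R (nib e 0) (nib e 1)).testBit a = true := by
      rw [rowx_bit]
      have := a.2
      exact ⟨hax, by omega, (hH _ _).1 ha⟩
    rw [← h9', Nat.testBit_and, Bool.and_eq_true, Nat.testBit_or, Bool.or_eq_true,
      Nat.testBit_or, Bool.or_eq_true, Nat.testBit_two_pow, Nat.testBit_two_pow,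
      Nat.testBit_two_pow] at hb
    rcases hb.2 with (h | h) | h
    · exact Or.inl (by simpa using Eq.symm (of_decide_eq_true h))
    · exact Or.inr (Or.inl (by simpa using Eq.symm (of_decide_eq_true h)))
    · exact Or.inr (Or.inr (by simpa using Eq.symm (of_decide_eq_true h)))
  refine ⟨hw, ?_, ?_⟩
  · intro a ha b hb hab
    have hab' : (a : ℕ) ≠ b := fun h => hab (Fin.ext h)
    have key : ∀ (u v : ℕ) (hu : u < n) (hv : v < n), ae R u v = true → (a : ℕ) = u →
        (b : ℕ) = v → H.Adj a b := by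
      intro u v hu hv huv e1 e2
      rcases ae_spec hH huv hu hv with h | h
      · exact absurd (e1.trans (h.trans e2.symm)) hab'
      · have e3 : a = ⟨u, hu⟩ := Fin.ext e1
        have e4 : b = ⟨v, hv⟩ := Fin.ext e2
        rw [e3, e4]
        exact h
    have key2 : ∀ (u v : ℕ) (hu : u < n) (hv : v < n), ae R u v = true → (b : ℕ) = u →
        (a : ℕ) = v → H.Adj a b := by
      intro u v hu hv huv e1 e2
      rcases ae_spec hH huv hu hv with h | h
      · exact absurd (e2.trans (h.symm.trans e1.symm)) hab'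
      · have e3 : b = ⟨u, hu⟩ := Fin.ext e1
        have e4 : a = ⟨v, hv⟩ := Fin.ext e2
        rw [e3, e4]
        exact h.symm
    have ha' := a.2
    have hb' := b.2
    rcases hsub a ha with e1 | e1 | e1
    · rcases hsub b hb with e2 | e2 | e2
      · exact absurd (e1.trans e2.symm) hab'
      · exact key _ _ (by omega) (by omega) h5 e1 e2
      · exact key _ _ (by omega) (by omega) h7 e1 e2
    · rcases hsub b hb with e2 | e2 | e2
      · exact key2 _ _ (by omega) (by omega) h5 e2 e1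
      · exact absurd (e1.trans e2.symm) hab'
      · exact key _ _ (by omega) (by omega) h8 e1 e2
    · rcases hsub b hb with e2 | e2 | e2
      · exact key2 _ _ (by omega) (by omega) h7 e2 e1
      · exact key2 _ _ (by omega) (by omega) h8 e2 e1
      · exact absurd (e1.trans e2.symm) hab'
  · have h10 : (Fin.val '' {a : Fin n | H.Adj ⟨nib e 0, hw⟩ a ∧ (a : ℕ) ≠ nib e 1}) ⊆
        {nib e 2, nib e 3, nib e 4} := by
      rintro _ ⟨a, ha, rfl⟩
      rcases hsub a ha with h | h | h
      · exact Or.inl h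
      · exact Or.inr (Or.inl h)
      · exact Or.inr (Or.inr h)
    rw [← Function.Injective.encard_image (Fin.val_injective (n := n))]
    refine (Set.encard_le_encard h10).trans ?_
    refine (Set.encard_insert_le _ _).trans ?_
    have e : (3 : ℕ∞) = 2 + 1 := by norm_num
    rw [e]
    refine add_le_add ?_ le_rfl
    refine (Set.encard_insert_le _ _).trans ?_
    rw [Set.encard_singleton]
    norm_num

theorem badF_bad {n R e : ℕ} (hn : n ≤ 10) {H : SimpleGraph (Fin n)} (hH : Mat n R H)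
    (h : badF n R e = true) : ∃ hw : nib e 0 < n, Bad H ⟨nib e 0, hw⟩ := by
  obtain ⟨hw, h1, h2⟩ := badF_spec hn hH h
  refine ⟨hw, ?_⟩
  have key : ∃ y : Fin n, ∀ a : Fin n, H.Adj ⟨nib e 0, hw⟩ a → (a ≠ y ↔ (a : ℕ) ≠ nib e 1) := by
    by_cases hx : nib e 1 < n
    · refine ⟨⟨nib e 1, hx⟩, fun a _ => ?_⟩
      rw [not_iff_not]
      exact Fin.ext_iff
    · refine ⟨⟨nib e 0, hw⟩, fun a ha => ?_⟩
      have := a.2
      exact ⟨fun _ => by omega, fun _ => ha.ne'⟩
  obtain ⟨y, hy⟩ := key
  have hset : {a | H.Adj ⟨nib e 0, hw⟩ a ∧ a ≠ y} =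
      {a | H.Adj ⟨nib e 0, hw⟩ a ∧ (a : ℕ) ≠ nib e 1} := by
    ext a
    constructor
    · rintro ⟨h3, h4⟩
      exact ⟨h3, (hy a h3).1 h4⟩
    · rintro ⟨h3, h4⟩
      exact ⟨h3, (hy a h3).2 h4⟩
  refine ⟨y, ?_, ?_⟩
  · rw [hset]
    exact h1
  · rw [hset]
    exact h2

/-- the new vertex is bad if its neighbours are a clique S with |S| at most 3, and one more -/
theorem last_bad {n R N : ℕ} (hn : n < 10) (hR : Rng n R) (hN : N < 2 ^ n)
    {G : SimpleGraph (Fin (n + 1))} {H : SimpleGraph (Fin n)} (hG : Mat (n + 1) (ext R n N) G)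
    (hH : Mat n R H) (S : Finset (Fin n)) (hS : S.card ≤ 3) (hcl : H.IsClique (S : Set (Fin n)))
    (hSN : ∀ i ∈ S, N.testBit i = true) (hp : pop N ≤ S.card + 1) : Bad G (Fin.last n) := by
  classical
  set T : Finset (Fin n) := Finset.univ.filter fun i : Fin n => N.testBit i = true with hT
  have hTc : T.card ≤ S.card + 1 := by
    rw [hT, ← pop_card hn.le (fun j hj => bit_lt hN hj)]
    exact hp
  have hST : S ⊆ T := by
    intro i hi
    rw [hT]
    simpa using hSN i hi
  have h1 : (T \ S).card ≤ 1 := by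
    rw [Finset.card_sdiff_of_subset hST]
    omega
  have hex : ∃ x : Fin (n + 1), ∀ i ∈ T \ S, i.castSucc = x := by
    by_cases hne : (T \ S).Nonempty
    · obtain ⟨x, hx⟩ := hne
      refine ⟨x.castSucc, fun i hi => ?_⟩
      rw [Finset.card_le_one.1 h1 i hi x hx]
    · rw [Finset.not_nonempty_iff_eq_empty] at hne
      exact ⟨Fin.last n, fun i hi => by rw [hne] at hi; simp at hi⟩
  obtain ⟨x, hx⟩ := hex
  have hsub : {a | G.Adj (Fin.last n) a ∧ a ≠ x} ⊆ Fin.castSucc '' (S : Set (Fin n)) := by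
    rintro a ⟨ha, hax⟩
    rcases Fin.eq_castSucc_or_eq_last a with ⟨i, rfl⟩ | rfl
    · have hi : N.testBit i = true := (adj_cl hn hR hN hG i).1 ha.symm
      refine ⟨i, ?_, rfl⟩
      by_contra hcon
      exact hax (hx i (by
        rw [Finset.mem_sdiff, hT]
        exact ⟨by simpa using hi, by simpa using hcon⟩))
    · exact absurd ha (SimpleGraph.irrefl _)
  refine ⟨x, ?_, ?_⟩
  · intro a ha b hb hab
    obtain ⟨i, hi, rfl⟩ := hsub ha
    obtain ⟨j, hj, rfl⟩ := hsub hb
    exact (adj_cc hn hR hN hG hH i j).2 (hcl hi hj (fun h => hab (by rw [h])))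
  · refine (Set.encard_le_encard hsub).trans ((Set.encard_image_le _ _).trans ?_)
    rw [Set.encard_coe_eq_coe_finsetCard]
    exact_mod_cast hS

theorem con_spec {n R V e N : ℕ} (hn : n < 10) (hR : Rng n R) {G : SimpleGraph (Fin (n + 1))}
    {H : SimpleGraph (Fin n)} (ok : Ok n R N G H) (hV : V.testBit N = true) :
    (con n R V e).testBit N = true := by
  classical
  have hN' := lt1024 hn.le ok.lt
  have hcc := adj_cc hn hR ok.lt ok.mat ok.matH
  have hcl := adj_cl hn hR ok.lt ok.mat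
  unfold con
  cases h1 : Nat.beq (nib e 0) 1 with
  | true => exact conA_spec hn hR ok.lt ok.matH (ok.hmin hn hR) hV
  | false =>
  rw [cond_false]
  cases h2 : Nat.beq (nib e 0) 2 with
  | true =>
    rw [cond_true]
    cases hb : badF n R (Nat.shiftRight e 4) with
    | false => exact hV
    | true =>
      rw [cond_true, cw_bit hN']
      refine ⟨hV, ?_⟩
      obtain ⟨hw, hbad⟩ := badF_bad hn.le ok.matH hb
      have e0 : nib (Nat.shiftRight e 4) 0 = nib e 1 := nib_shift e 1 0
      by_contra hcon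
      have := bad_castSucc hcc hcl hbad (by
        show ¬ N.testBit (nib (Nat.shiftRight e 4) 0) = true
        rw [e0]
        exact hcon)
      exact ok.good _ this
  | false =>
  rw [cond_false]
  cases h3 : Nat.beq (nib e 0) 3 with
  | true =>
    rw [cond_true]
    cases hb : tb R (Nat.add (Nat.mul 16 (nib e 1)) (nib e 2)) with
    | false => exact hV
    | true =>
      rw [cond_true]
      refine xor_sub_bit hV ?_
      rw [le_bit (by norm_num) hN', cw_bit hN', cw_bit hN']
      rintro ⟨⟨⟨_, ha⟩, hb'⟩, hp⟩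
      rw [tb_eq] at hb
      have ha1 := bit_lt ok.lt ha
      have hb1 := bit_lt ok.lt hb'
      have hadj : H.Adj ⟨_, ha1⟩ ⟨_, hb1⟩ := (ok.matH _ _).2 hb
      refine ok.good (Fin.last n) (last_bad hn hR ok.lt ok.mat ok.matH
        {⟨_, ha1⟩, ⟨_, hb1⟩} (by rw [Finset.card_pair hadj.ne]; norm_num) ?_ ?_ ?_)
      · rw [Finset.coe_pair]
        intro x hx y hy hxy
        rcases hx with rfl | rfl
        · rcases hy with rfl | rfl
          · exact absurd rfl hxy
          · exact hadj
        · rcases hy with rfl | rfl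
          · exact hadj.symm
          · exact absurd rfl hxy
      · intro i hi
        rw [Finset.mem_insert, Finset.mem_singleton] at hi
        rcases hi with rfl | rfl
        · exact ha
        · exact hb'
      · rw [Finset.card_pair hadj.ne]
        exact hp
  | false =>
  rw [cond_false]
  cases h4 : Nat.beq (nib e 0) 4 with
  | true =>
    rw [cond_true]
    cases hb : and (tb R (Nat.add (Nat.mul 16 (nib e 1)) (nib e 2)))
        (and (tb R (Nat.add (Nat.mul 16 (nib e 1)) (nib e 3)))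
          (tb R (Nat.add (Nat.mul 16 (nib e 2)) (nib e 3)))) with
    | false => exact hV
    | true =>
      rw [cond_true]
      refine xor_sub_bit hV ?_
      rw [le_bit (by norm_num) hN', cw_bit hN', cw_bit hN', cw_bit hN']
      rintro ⟨⟨⟨⟨_, ha⟩, hb'⟩, hc⟩, hp⟩
      obtain ⟨k1, k2⟩ := Bool.and_eq_true_iff.1 hb
      obtain ⟨k3, k4⟩ := Bool.and_eq_true_iff.1 k2
      rw [tb_eq] at k1 k3 k4
      have ha1 := bit_lt ok.lt ha
      have hb1 := bit_lt ok.lt hb'
      have hc1 := bit_lt ok.lt hc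
      have hab : H.Adj ⟨_, ha1⟩ ⟨_, hb1⟩ := (ok.matH _ _).2 k1
      have hac : H.Adj ⟨_, ha1⟩ ⟨_, hc1⟩ := (ok.matH _ _).2 k3
      have hbc : H.Adj ⟨_, hb1⟩ ⟨_, hc1⟩ := (ok.matH _ _).2 k4
      have hcard : ({⟨_, ha1⟩, ⟨_, hb1⟩, ⟨_, hc1⟩} : Finset (Fin n)).card = 3 :=
        Finset.card_eq_three.2 ⟨_, _, _, hab.ne, hac.ne, hbc.ne, rfl⟩
      refine ok.good (Fin.last n) (last_bad hn hR ok.lt ok.mat ok.matH
        {⟨_, ha1⟩, ⟨_, hb1⟩, ⟨_, hc1⟩} (by rw [hcard]) ?_ ?_ ?_)
      · intro x hx y hy hxy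
        simp only [Finset.coe_insert, Finset.coe_singleton, Set.mem_insert_iff,
          Set.mem_singleton_iff] at hx hy
        rcases hx with rfl | rfl | rfl
        · rcases hy with rfl | rfl | rfl
          · exact absurd rfl hxy
          · exact hab
          · exact hac
        · rcases hy with rfl | rfl | rfl
          · exact hab.symm
          · exact absurd rfl hxy
          · exact hbc
        · rcases hy with rfl | rfl | rfl
          · exact hac.symm
          · exact hbc.symm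
          · exact absurd rfl hxy
      · intro i hi
        simp only [Finset.mem_insert, Finset.mem_singleton] at hi
        rcases hi with rfl | rfl | rfl
        · exact ha
        · exact hb'
        · exact hc
      · rw [hcard]
        exact hp
  | false =>
  rw [cond_false]
  cases hb : and (Nat.beq (nib e 2) 15) (badF n R (Nat.shiftRight e 4)) with
  | false => exact hV
  | true =>
    exfalso
    obtain ⟨k1, k2⟩ := Bool.and_eq_true_iff.1 hb
    have k3 := Nat.eq_of_beq_eq_true k1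
    obtain ⟨hw, h5, h6⟩ := badF_spec hn.le ok.matH k2
    have e1 : nib (Nat.shiftRight e 4) 1 = 15 := (nib_shift e 1 1).trans k3
    have hset : {a | H.Adj ⟨nib (Nat.shiftRight e 4) 0, hw⟩ a ∧
        (a : ℕ) ≠ nib (Nat.shiftRight e 4) 1} = {a | H.Adj ⟨nib (Nat.shiftRight e 4) 0, hw⟩ a} := by
      ext a
      constructor
      · exact fun h => h.1
      · intro h
        refine ⟨h, ?_⟩
        rw [e1]
        have := a.2
        omega
    rw [hset] at h5 h6
    refine ok.good (Fin.castSucc ⟨_, hw⟩) ⟨Fin.last n, ?_, ?_⟩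
    · intro a ha b hb hab
      rcases Fin.eq_castSucc_or_eq_last a with ⟨i, rfl⟩ | rfl
      · rcases Fin.eq_castSucc_or_eq_last b with ⟨j, rfl⟩ | rfl
        · exact (hcc i j).2 (h5 ((hcc _ _).1 ha.1) ((hcc _ _).1 hb.1) (fun h => hab (by rw [h])))
        · exact absurd rfl hb.2
      · exact absurd rfl ha.2
    · have hsub : {a | G.Adj (Fin.castSucc ⟨nib (Nat.shiftRight e 4) 0, hw⟩) a ∧ a ≠ Fin.last n} ⊆
          Fin.castSucc '' {a | H.Adj ⟨nib (Nat.shiftRight e 4) 0, hw⟩ a} := by
        rintro a ⟨ha, ha'⟩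
        rcases Fin.eq_castSucc_or_eq_last a with ⟨i, rfl⟩ | rfl
        · exact ⟨i, (hcc _ _).1 ha, rfl⟩
        · exact absurd rfl ha'
      exact (Set.encard_le_encard hsub).trans ((Set.encard_image_le _ _).trans h6)

theorem dead_spec {n R N : ℕ} (hn : n < 10) (hR : Rng n R) {G : SimpleGraph (Fin (n + 1))}
    {H : SimpleGraph (Fin n)} (ok : Ok n R N G H) : ∀ (f V D : ℕ) (k : ℕ → Bool),
      V.testBit N = true → dead n R f V D k = true → False := by
  intro f
  induction f with
  | zero =>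
    intro V D k hV h
    obtain ⟨h1, _⟩ := Bool.and_eq_true_iff.1 (show and (Nat.beq V 0) (k D) = true from h)
    have h0 : V = 0 := Nat.eq_of_beq_eq_true h1
    rw [h0] at hV
    simp at hV
  | succ f ih =>
    intro V D k hV h
    have h' : cond (Nat.beq V 0) (k D)
      (dead n R f (con n R V (Nat.land D 0xffffff)) (Nat.shiftRight D 24) k) = true := h
    cases h0 : Nat.beq V 0 with
    | true =>
      have h1 : V = 0 := Nat.eq_of_beq_eq_true h0
      rw [h1] at hV
      simp at hV
    | false =>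
      rw [h0, cond_false] at h'
      exact ih _ _ _ (con_spec hn hR ok hV) h'

theorem dead_cont {n R : ℕ} : ∀ (f V D : ℕ) (k : ℕ → Bool),
      dead n R f V D k = true → ∃ D', k D' = true := by
  intro f
  induction f with
  | zero =>
    intro V D k h
    obtain ⟨_, h2⟩ := Bool.and_eq_true_iff.1 (show and (Nat.beq V 0) (k D) = true from h)
    exact ⟨D, h2⟩
  | succ f ih =>
    intro V D k h
    have h' : cond (Nat.beq V 0) (k D)
      (dead n R f (con n R V (Nat.land D 0xffffff)) (Nat.shiftRight D 24) k) = true := h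
    cases h0 : Nat.beq V 0 with
    | true =>
      rw [h0, cond_true] at h'
      exact ⟨D, h'⟩
    | false =>
      rw [h0, cond_false] at h'
      exact ih _ _ _ h'

end Pool.Agent.TW4.So
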