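import Pool.Agent.TW4.Sm.Loop

/-! Orders up to 10: faster checkers (no recursion where it matters). -/

namespace Pool.Agent.TW4.So

open Pool.Agent.TW4 Pool.Agent.TW4.Sm

/-- `colP R p 10` -/
def colU (R p : ℕ) : ℕ :=
  (Nat.lor (Nat.lor (Nat.lor (Nat.lor (Nat.lor (Nat.lor (Nat.lor (Nat.lor (Nat.lor (Nat.lor 0
  (Nat.shiftLeft (Nat.land (Nat.shiftRight R 0)
    0x100010001000100010001000100010001000100010001000100010001) (Nat.land (Nat.shiftRight p 0) 15)))
  (Nat.shiftLeft (Nat.land (Nat.shiftRight R 1)
    0x100010001000100010001000100010001000100010001000100010001) (Nat.land (Nat.shiftRight p 4) 15)))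
  (Nat.shiftLeft (Nat.land (Nat.shiftRight R 2)
    0x100010001000100010001000100010001000100010001000100010001) (Nat.land (Nat.shiftRight p 8) 15)))
  (Nat.shiftLeft (Nat.land (Nat.shiftRight R 3)
    0x100010001000100010001000100010001000100010001000100010001) (Nat.land (Nat.shiftRight p 12) 15)))
  (Nat.shiftLeft (Nat.land (Nat.shiftRight R 4)
    0x100010001000100010001000100010001000100010001000100010001) (Nat.land (Nat.shiftRight p 16) 15)))
  (Nat.shiftLeft (Nat.land (Nat.shiftRight R 5)
    0x100010001000100010001000100010001000100010001000100010001) (Nat.land (Nat.shiftRight p 20) 15)))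
  (Nat.shiftLeft (Nat.land (Nat.shiftRight R 6)
    0x100010001000100010001000100010001000100010001000100010001) (Nat.land (Nat.shiftRight p 24) 15)))
  (Nat.shiftLeft (Nat.land (Nat.shiftRight R 7)
    0x100010001000100010001000100010001000100010001000100010001) (Nat.land (Nat.shiftRight p 28) 15)))
  (Nat.shiftLeft (Nat.land (Nat.shiftRight R 8)
    0x100010001000100010001000100010001000100010001000100010001) (Nat.land (Nat.shiftRight p 32) 15)))
  (Nat.shiftLeft (Nat.land (Nat.shiftRight R 9)
    0x100010001000100010001000100010001000100010001000100010001) (Nat.land (Nat.shiftRight p 36) 15)))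

/-- `rowP C p 10` -/
def rowU (C p : ℕ) : ℕ :=
  (Nat.lor (Nat.lor (Nat.lor (Nat.lor (Nat.lor (Nat.lor (Nat.lor (Nat.lor (Nat.lor (Nat.lor 0
  (Nat.shiftLeft (Nat.land (Nat.shiftRight C 0) 65535) (Nat.mul 16 (Nat.land (Nat.shiftRight p 0) 15))))
  (Nat.shiftLeft (Nat.land (Nat.shiftRight C 16) 65535) (Nat.mul 16 (Nat.land (Nat.shiftRight p 4) 15))))
  (Nat.shiftLeft (Nat.land (Nat.shiftRight C 32) 65535) (Nat.mul 16 (Nat.land (Nat.shiftRight p 8) 15))))
  (Nat.shiftLeft (Nat.land (Nat.shiftRight C 48) 65535) (Nat.mul 16 (Nat.land (Nat.shiftRight p 12) 15))))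
  (Nat.shiftLeft (Nat.land (Nat.shiftRight C 64) 65535) (Nat.mul 16 (Nat.land (Nat.shiftRight p 16) 15))))
  (Nat.shiftLeft (Nat.land (Nat.shiftRight C 80) 65535) (Nat.mul 16 (Nat.land (Nat.shiftRight p 20) 15))))
  (Nat.shiftLeft (Nat.land (Nat.shiftRight C 96) 65535) (Nat.mul 16 (Nat.land (Nat.shiftRight p 24) 15))))
  (Nat.shiftLeft (Nat.land (Nat.shiftRight C 112) 65535) (Nat.mul 16 (Nat.land (Nat.shiftRight p 28) 15))))
  (Nat.shiftLeft (Nat.land (Nat.shiftRight C 128) 65535) (Nat.mul 16 (Nat.land (Nat.shiftRight p 32) 15))))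
  (Nat.shiftLeft (Nat.land (Nat.shiftRight C 144) 65535) (Nat.mul 16 (Nat.land (Nat.shiftRight p 36) 15))))

/-- `imgP p 10` -/
def imgU (p : ℕ) : ℕ :=
  (Nat.lor (Nat.lor (Nat.lor (Nat.lor (Nat.lor (Nat.lor (Nat.lor (Nat.lor (Nat.lor (Nat.lor 0
  (Nat.shiftLeft 1 (Nat.land (Nat.shiftRight p 0) 15)))
  (Nat.shiftLeft 1 (Nat.land (Nat.shiftRight p 4) 15)))
  (Nat.shiftLeft 1 (Nat.land (Nat.shiftRight p 8) 15)))
  (Nat.shiftLeft 1 (Nat.land (Nat.shiftRight p 12) 15)))
  (Nat.shiftLeft 1 (Nat.land (Nat.shiftRight p 16) 15)))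
  (Nat.shiftLeft 1 (Nat.land (Nat.shiftRight p 20) 15)))
  (Nat.shiftLeft 1 (Nat.land (Nat.shiftRight p 24) 15)))
  (Nat.shiftLeft 1 (Nat.land (Nat.shiftRight p 28) 15)))
  (Nat.shiftLeft 1 (Nat.land (Nat.shiftRight p 32) 15)))
  (Nat.shiftLeft 1 (Nat.land (Nat.shiftRight p 36) 15)))

/-- the digits of p from number k on are equal to digit 0 (p has 10 digits) -/
def dup (k p : ℕ) : Bool :=
  Nat.beq (Nat.shiftRight p (Nat.mul 4 k))
    (Nat.mul (nib p 0) (Nat.shiftRight 0x1111111111 (Nat.mul 4 k)))

/-- p is an isomorphism from R to S (order m) -/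
def isoF (m R S p : ℕ) : Bool :=
  and (Nat.beq (rowU (colU R p) p) S)
    (and (Nat.beq (imgU p) (Nat.sub (Nat.shiftLeft 1 m) 1)) (dup m p))

/-- the graph M with k vertices is embedded in R, inside A, by the map p -/
def embF (k M p R A : ℕ) : Bool :=
  and (Nat.beq (Nat.land (rowU (colU M p) p) R) (rowU (colU M p) p))
    (and (Nat.beq (Nat.land (imgU p) A) (imgU p)) (and (Nat.beq (pop (imgU p)) k) (dup k p)))

/-- digit 1024 t + j is 1 if j has at most t ones (t at most 11) -/
def LT : ℕ := 0xffffffffffffffffffffffffffffffffffffffffffffffffffffffffffffffffffffffffffffffffffffffffffffffffffffffffffffffffffffffffffffffffffffffffffffffffffffffffffffffffffffffffffffffffffffffffffffffffffffffffffffffffffffffffffffffffffffffffffffffffffffffffffffffffffffffffffffffffffffffffffffffffffffffffffffffffffffffffffffffffffffffffffffffffffffffffffffffffffffffffffffffffffffffffffffffffffffffffffffffffffffffffffffffffffffffffffffffffffffffffffffffffffffffffffffffffffffffffffffffffffffffffffffffffffffffffffffffff7fffffffffffffffff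ffffffffffffffffffffffffffffffffffffffffffffffffffffffffffffffffffffffffffffffffffffffffffffffffffffffffffffffffffffffffffffffffffffffffffffffffffffffffffffffffffffffffffffffffffffffffffffffffffffffffffffffffffffffffffffffffffffffffffffff177f7fff7fffffff7fffffffffffffff7fffffffffffffffffffffffffffffff7fffffffffffffffffffffffffffffffffffffffffffffffffffffffffffffff7fffffffffffffffffffffffffffffffffffffffffffffffffffffffffffffffffffffffffffffffffffffffffffffffffffffffffffffffffffffffffffffff0117177f177f7fff177f7fff7fffffff177f7fff7fffffff7fffffffffffffff177f7fff7fffffff7fffffffffffffff7fffffffffffffffffffffffffffffff177f7fff7fffffff7fffffffffffffff7fffffffffffffffffffffffffffffff7fffffffffffffffffffffffffffffffffffffffffffffffffffffffffffffff000101170117177f0117177f177f7fff0117177f177f7fff177f7fff7fffffff0117177f177f7fff177f7fff7fffffff177f7fff7fffffff7fffffffffffffff0117177f177f7fff177f7fff7fffffff177f7fff7fffffff7fffffffffffffff177f7fff7fffffff7fffffffffffffff7fffffffffffffffffffffffffffffff000000010001011700010117011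7177f000101170117177f0117177f177f7fff000101170117177f0117177f177f7fff0117177f177f7fff177f7fff7fffffff000101170117177f0117177f177f7fff0117177f177f7fff177f7fff7fffffff0117177f177f7fff177f7fff7fffffff177f7fff7fffffff7fffffffffffffff000000000000000100000001000101170000000100010117000101170117177f0000000100010117000101170117177f000101170117177f0117177f177f7fff0000000100010117000101170117177f000101170117177f0117177f177f7fff000101170117177f0117177f177f7fff0117177f177f7fff177f7fff7fffffff0000000000000000000000000000000100000000000000010000000100010117000000000000000100000001000101170000000100010117000101170117177f000000000000000100000001000101170000000100010117000101170117177f0000000100010117000101170117177f000101170117177f0117177f177f7fff000000000000000000000000000000000000000000000000000000000000000100000000000000000000000000000001000000000000000100000001000101170000000000000000000000000000000100000000000000010000000100010117000000000000000100000001000101170000000100010117000101170117177f00000000000000000000000000000000000000000000000000000000000000000000000000000000000000000000000000000000000000000000000000000001000000000000000000000000000000000000000000000000000000000000000100000000000000000000000000000001000000000000000100000001000101170000000000000000000000000000000000000000000000000000000000000000000000000000000000000000000000000000000000000000000000000000000000000000000000000000000000000000000000000000000000000000000000000000000000000000000000000000000000000000000000000000000000000001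

/-- keeps the masks that contain w -/
def cw (V w : ℕ) : ℕ := Nat.land V (Nat.shiftRight CT (Nat.mul 1024 w))

/-- keeps the masks with at most t elements -/
def le (V t : ℕ) : ℕ := Nat.land V (Nat.shiftRight LT (Nat.mul 1024 t))

/-- the masks below 2^n -/
def fullM (n : ℕ) : ℕ := Nat.sub (Nat.shiftLeft 1 (Nat.shiftLeft 1 n)) 1

/-- the masks with 3, 4 or 5 elements -/
def V0 (n : ℕ) : ℕ := Nat.xor (le (fullM n) 5) (le (fullM n) 2)

/-- v has at most as many neighbours as w -/
def conA (n R V w : ℕ) : ℕ :=
  cond (Nat.ble (Nat.succ w) n)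
    (Nat.lor (le V (deg R w)) (cw (le V (Nat.succ (deg R w))) w)) V

/-- a and b are equal or adjacent -/
def ae (R a b : ℕ) : Bool := or (Nat.beq a b) (tb R (Nat.add (Nat.mul 16 a) b))

/-- digits w, x, a, b, c: the neighbours of w apart from x are among a, b, c, which are pairwise
equal or adjacent -/
def badF (n R e : ℕ) : Bool :=
  and (and (Nat.ble (Nat.succ (nib e 0)) n)
    (Nat.beq (Nat.land (rowx R (nib e 0) (nib e 1))
      (Nat.lor (Nat.lor (Nat.shiftLeft 1 (nib e 2)) (Nat.shiftLeft 1 (nib e 3)))
        (Nat.shiftLeft 1 (nib e 4)))) (rowx R (nib e 0) (nib e 1))))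
    (and (ae R (nib e 2) (nib e 3)) (and (ae R (nib e 2) (nib e 4)) (ae R (nib e 3) (nib e 4))))

/-- one constraint (24 digits) -/
def con (n R V e : ℕ) : ℕ :=
  cond (Nat.beq (nib e 0) 1) (conA n R V (nib e 1))
  (cond (Nat.beq (nib e 0) 2) (cond (badF n R (Nat.shiftRight e 4)) (cw V (nib e 1)) V)
  (cond (Nat.beq (nib e 0) 3)
    (cond (tb R (Nat.add (Nat.mul 16 (nib e 1)) (nib e 2)))
      (Nat.xor V (le (cw (cw V (nib e 1)) (nib e 2)) 3)) V)
  (cond (Nat.beq (nib e 0) 4)
    (cond (and (tb R (Nat.add (Nat.mul 16 (nib e 1)) (nib e 2)))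
        (and (tb R (Nat.add (Nat.mul 16 (nib e 1)) (nib e 3)))
          (tb R (Nat.add (Nat.mul 16 (nib e 2)) (nib e 3)))))
      (Nat.xor V (le (cw (cw (cw V (nib e 1)) (nib e 2)) (nib e 3)) 4)) V)
    (cond (and (Nat.beq (nib e 2) 15) (badF n R (Nat.shiftRight e 4))) 0 V))))

/-- constraints until no mask is left -/
def dead (n R : ℕ) : ℕ → ℕ → ℕ → (ℕ → Bool) → Bool
  | 0, V, D, k => and (Nat.beq V 0) (k D)
  | f + 1, V, D, k => cond (Nat.beq V 0) (k D)
      (dead n R f (con n R V (Nat.land D 0xffffff)) (Nat.shiftRight D 24) k)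

/-- the masks of V that contain the digits of x (5 digits) -/
def upS (V x : ℕ) : ℕ := cw (cw (cw (cw (cw V (nib x 0)) (nib x 1)) (nib x 2)) (nib x 3)) (nib x 4)

/-- the set of the digits of x (5 digits) -/
def setS (x : ℕ) : ℕ :=
  Nat.lor (Nat.lor (Nat.lor (Nat.lor (Nat.shiftLeft 1 (nib x 0)) (Nat.shiftLeft 1 (nib x 1)))
    (Nat.shiftLeft 1 (nib x 2))) (Nat.shiftLeft 1 (nib x 3))) (Nat.shiftLeft 1 (nib x 4))

/-- the masks of V that contain one of the digits of z (6 digits) -/
def orS (V z : ℕ) : ℕ :=
  Nat.land V (Nat.lor (Nat.lor (Nat.lor (Nat.lor (Nat.lor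
    (Nat.shiftRight CT (Nat.mul 1024 (nib z 0))) (Nat.shiftRight CT (Nat.mul 1024 (nib z 1))))
    (Nat.shiftRight CT (Nat.mul 1024 (nib z 2)))) (Nat.shiftRight CT (Nat.mul 1024 (nib z 3))))
    (Nat.shiftRight CT (Nat.mul 1024 (nib z 4)))) (Nat.shiftRight CT (Nat.mul 1024 (nib z 5))))

/-- the set of the digits of z (6 digits) -/
def setZ (z : ℕ) : ℕ := Nat.lor (setS z) (Nat.shiftLeft 1 (nib z 5))

/-- removes the largest element -/
def uM (M : ℕ) : ℕ := cond (Nat.beq M 0) 0 (Nat.xor M (Nat.shiftLeft 1 (Nat.log2 M)))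

/-- adds N to the row of the largest element of M -/
def uR (M N R : ℕ) : ℕ :=
  cond (Nat.beq M 0) R (Nat.lor R (Nat.shiftLeft N (Nat.mul 16 (Nat.log2 M))))

/-- eliminates v (with neighbours N) -/
def stE (k : ℕ → Bool) (R N : ℕ) : Bool :=
  and (Nat.beq (uM (uM (uM (uM N)))) 0)
    (k (uR (uM (uM (uM N))) N (uR (uM (uM N)) N (uR (uM N) N (uR N N R)))))

/-- eliminates s vertices (digits of o), then at most 5 are left -/
def elimF : ℕ → ℕ → ℕ → ℕ → Bool
  | 0, _, A, _ => Nat.ble (pop A) 5
  | s + 1, R, A, o =>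
      and (tb A (nib o 0))
        (stE (fun R' => elimF s R' (Nat.xor A (Nat.shiftLeft 1 (nib o 0))) (Nat.shiftRight o 4)) R
          (Nat.land (Nat.shiftRight R (Nat.mul 16 (nib o 0)))
            (Nat.xor A (Nat.shiftLeft 1 (nib o 0)))))

end Pool.Agent.TW4.So
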