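import Pool.Agent.TW4.Data.D6a
import Pool.Agent.TW4.Data.D7a
import Pool.Agent.TW4.Data.D8a
import Pool.Agent.TW4.Data.D9a
import Pool.Agent.TW4.Data.D9b
import Pool.Agent.TW4.Data.D10a
import Pool.Agent.TW4.Data.D10b
import Pool.Agent.TW4.Data.D10c
import Pool.Agent.TW4.Data.D10d
import Pool.Agent.TW4.Catalogue

/-! The 49 graphs of order at most 10 are members of O_4. -/

namespace Pool.Agent.TW4.So

open Pool.Agent.TW4

theorem good6 : Good 6 codes6 := by
  refine good_of (L6a) ?_ (by decide +kernel) (by decide +kernel)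
  intro x hx
  exact List.all_eq_true.1 L6a_ok x hx

theorem good7 : Good 7 codes7 := by
  refine good_of (L7a) ?_ (by decide +kernel) (by decide +kernel)
  intro x hx
  exact List.all_eq_true.1 L7a_ok x hx

theorem good8 : Good 8 codes8 := by
  refine good_of (L8a) ?_ (by decide +kernel) (by decide +kernel)
  intro x hx
  exact List.all_eq_true.1 L8a_ok x hx

theorem good9 : Good 9 codes9 := by
  refine good_of (L9a ++ L9b) ?_ (by decide +kernel) (by decide +kernel)
  intro x hx
  simp only [List.mem_append] at hx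
  rcases hx with h | h
  · exact List.all_eq_true.1 L9a_ok x h
  · exact List.all_eq_true.1 L9b_ok x h

theorem good10 : Good 10 codes10 := by
  refine good_of (L10a ++ L10b ++ L10c ++ L10d) ?_ (by decide +kernel) (by decide +kernel)
  intro x hx
  simp only [List.mem_append] at hx
  rcases hx with ((h | h) | h) | h
  · exact List.all_eq_true.1 L10a_ok x h
  · exact List.all_eq_true.1 L10b_ok x h
  · exact List.all_eq_true.1 L10c_ok x h
  · exact List.all_eq_true.1 L10d_ok x h

/-- the graphs of the catalogue of order at most 10 -/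
def small : List (ℕ × ℕ) :=
  codes6.map (fun c => (6, c)) ++ codes7.map (fun c => (7, c)) ++ codes8.map (fun c => (8, c)) ++
    codes9.map (fun c => (9, c)) ++ codes10.map (fun c => (10, c))

theorem iso_card' {n m c d : ℕ} (h : n ≠ m) : IsEmpty (gr n c ≃g gr m d) := by
  refine ⟨fun e => h ?_⟩
  have := Fintype.card_congr e.toEquiv
  simpa using this

theorem pw {n : ℕ} {cs : List ℕ} (h : Good n cs) :
    (cs.map fun c => (n, c)).Pairwise fun p q => IsEmpty (gr p.1 p.2 ≃g gr q.1 q.2) := by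
  rw [List.pairwise_map]
  exact h.2

theorem ob {n : ℕ} {cs : List ℕ} (h : Good n cs) :
    ∀ p ∈ cs.map (fun c => (n, c)), p.1 = n ∧ IsObstruction 4 (gr p.1 p.2) := by
  intro p hp
  obtain ⟨c, hc, rfl⟩ := List.mem_map.1 hp
  exact ⟨rfl, h.1 c hc⟩

theorem pairs : (∀ p ∈ small, p.1 ≤ 10 ∧ IsObstruction 4 (gr p.1 p.2)) ∧
    small.Pairwise fun p q => IsEmpty (gr p.1 p.2 ≃g gr q.1 q.2) := by
  have step : ∀ (A : List (ℕ × ℕ)) (k n : ℕ) (cs : List ℕ), k < n → Good n cs →
      ((∀ p ∈ A, p.1 ≤ k ∧ IsObstruction 4 (gr p.1 p.2)) ∧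
        A.Pairwise fun p q => IsEmpty (gr p.1 p.2 ≃g gr q.1 q.2)) →
      ((∀ p ∈ A ++ cs.map (fun c => (n, c)), p.1 ≤ n ∧ IsObstruction 4 (gr p.1 p.2)) ∧
        (A ++ cs.map (fun c => (n, c))).Pairwise
          fun p q => IsEmpty (gr p.1 p.2 ≃g gr q.1 q.2)) := by
    rintro A k n cs hkn hcs ⟨h1, h2⟩
    refine ⟨?_, ?_⟩
    · intro p hp
      rcases List.mem_append.1 hp with hp | hp
      · exact ⟨(h1 p hp).1.trans hkn.le, (h1 p hp).2⟩
      · exact ⟨(ob hcs p hp).1.le, (ob hcs p hp).2⟩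
    · rw [List.pairwise_append]
      refine ⟨h2, pw hcs, ?_⟩
      intro p hp q hq
      refine iso_card' ?_
      have e1 := (h1 p hp).1
      have e2 := (ob hcs q hq).1
      omega
  have h0 : ((∀ p ∈ codes6.map (fun c => (6, c)), p.1 ≤ 6 ∧ IsObstruction 4 (gr p.1 p.2)) ∧
        (codes6.map fun c => (6, c)).Pairwise
          fun p q => IsEmpty (gr p.1 p.2 ≃g gr q.1 q.2)) :=
    ⟨fun p hp => ⟨(ob good6 p hp).1.le, (ob good6 p hp).2⟩, pw good6⟩
  unfold small
  exact step _ 9 10 _ (by norm_num) good10 (step _ 8 9 _ (by norm_num) good9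
    (step _ 7 8 _ (by norm_num) good8 (step _ 6 7 _ (by norm_num) good7 h0)))

end Pool.Agent.TW4.So
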