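import Pool.Agent.TW4.So.MachS

/-! The levels. -/

namespace Pool.Agent.TW4.So

open Pool.Agent.TW4 Pool.Agent.TW4.Sm

/-- G without v, for a vertex v of minimum degree (3, 4 or 5) of a graph G without bad vertices -/
def ExtP (n : ℕ) (H : SimpleGraph (Fin n)) : Prop :=
  ∃ (G : SimpleGraph (Fin (n + 1))) (v : Fin (n + 1)), Nonempty (G.comap v.succAbove ≃g H) ∧
    (∀ u, ¬ Bad G u) ∧ (∀ x, dg G v ≤ dg G x) ∧ 3 ≤ dg G v ∧ dg G v ≤ 5

theorem ok_of_ext {n R : ℕ} (hn : n < 10) (hR : Rng n R) {G : SimpleGraph (Fin (n + 1))}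
    {v : Fin (n + 1)} (hrep : Rep n R (G.comap v.succAbove)) (hg : ∀ u, ¬ Bad G u)
    (hmin : ∀ x, dg G v ≤ dg G x) (h3 : 3 ≤ dg G v) (h5 : dg G v ≤ 5) :
    ∃ (N : ℕ) (G' : SimpleGraph (Fin (n + 1))) (H' : SimpleGraph (Fin n)),
      Nonempty (G ≃g G') ∧ Ok n R N G' H' := by
  obtain ⟨N, G', H', e, hN, hM, hH', hev, -, hcc, hcl⟩ := ext_rep hn hR hrep
  have hlast := dg_last hn.le hN hcl
  have hp : pop N = dg G v := by
    rw [← hlast, ← hev, dg_iso e v]
  refine ⟨N, G', H', ⟨e⟩, hN, hM, hH', ?_, ?_, by omega, by omega⟩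
  · intro u hu
    exact hg _ (bad_iso e.symm hu)
  · intro x
    rw [← hev, dg_iso e v]
    have := hmin (e.symm x)
    rw [← dg_iso e (e.symm x), e.apply_symm_apply] at this
    exact this

theorem adj_of_bad {n : ℕ} {G : SimpleGraph (Fin (n + 1))} {v : Fin (n + 1)}
    (hg : ∀ u, ¬ Bad G u) {w : Fin n} (hw : Bad (G.comap v.succAbove) w) :
    G.Adj (v.succAbove w) v := by
  by_contra hcon
  obtain ⟨x, h1, h2⟩ := hw
  refine hg (v.succAbove w) ⟨v.succAbove x, ?_, ?_⟩
  · rintro a ⟨ha, ha'⟩ b ⟨hb, hb'⟩ hab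
    have hav : a ≠ v := by
      rintro rfl
      exact hcon ha
    have hbv : b ≠ v := by
      rintro rfl
      exact hcon hb
    obtain ⟨i, rfl⟩ := Fin.exists_succAbove_eq hav
    obtain ⟨j, rfl⟩ := Fin.exists_succAbove_eq hbv
    exact h1 (x := i) ⟨ha, fun h => ha' (by rw [h])⟩ (y := j) ⟨hb, fun h => hb' (by rw [h])⟩
      (fun h => hab (by rw [h]))
  · have : {a | G.Adj (v.succAbove w) a ∧ a ≠ v.succAbove x} ⊆
        v.succAbove '' {a | (G.comap v.succAbove).Adj w a ∧ a ≠ x} := by
      rintro a ⟨ha, ha'⟩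
      have hav : a ≠ v := by
        rintro rfl
        exact hcon ha
      obtain ⟨i, rfl⟩ := Fin.exists_succAbove_eq hav
      exact ⟨i, ⟨ha, fun h => ha' (by rw [h])⟩, rfl⟩
    exact (Set.encard_le_encard this).trans ((Set.encard_image_le _ _).trans h2)

theorem pr_of_ext {n : ℕ} {H : SimpleGraph (Fin n)} (h : ExtP n H) (w : Fin n) :
    {u | Bad H u}.encard ≤ dg H w + 1 := by
  classical
  obtain ⟨G, v, ⟨e⟩, hg, hmin, -, -⟩ := h
  have h1 : {u | Bad H u}.encard ≤ dg G v := by
    rw [← dg_encard]
    refine Set.encard_le_encard_of_injOn (f := fun u => v.succAbove (e.symm u)) ?_ ?_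
    · intro u hu
      exact (adj_of_bad hg (bad_iso e.symm hu)).symm
    · intro a _ b _ hab
      exact e.symm.injective (Fin.succAbove_right_injective hab)
  have h2 : dg G v ≤ dg H w + 1 := by
    refine (hmin (v.succAbove (e.symm w))).trans ?_
    have h3 := dg_iso e (e.symm w)
    rw [e.apply_symm_apply] at h3
    rw [h3]
    unfold dg
    have hsub : (Finset.univ.filter fun a => G.Adj (v.succAbove (e.symm w)) a) ⊆
        insert v ((Finset.univ.filter fun a => (G.comap v.succAbove).Adj (e.symm w) a).image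
          v.succAbove) := by
      intro a ha
      simp only [Finset.mem_filter, Finset.mem_univ, true_and] at ha
      by_cases hav : a = v
      · exact Finset.mem_insert.2 (Or.inl hav)
      · obtain ⟨i, rfl⟩ := Fin.exists_succAbove_eq hav
        refine Finset.mem_insert_of_mem (Finset.mem_image.2 ⟨i, ?_, rfl⟩)
        simpa using ha
    refine (Finset.card_le_card hsub).trans ((Finset.card_insert_le _ _).trans ?_)
    exact Nat.add_le_add_right Finset.card_image_le 1
  refine h1.trans ?_
  exact_mod_cast h2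

theorem extP_iso {n : ℕ} {G H : SimpleGraph (Fin n)} (e : G ≃g H) (h : ExtP n G) : ExtP n H := by
  obtain ⟨G', v, ⟨e'⟩, h1, h2, h3⟩ := h
  exact ⟨G', v, ⟨e'.trans e⟩, h1, h2, h3⟩

/-! the final machine -/

theorem fin_cont {n m R : ℕ} : ∀ (f V D : ℕ) (k : ℕ → Bool),
      fin n m R f V D k = true → ∃ D', k D' = true := by
  intro f
  induction f with
  | zero =>
    intro V D k h
    obtain ⟨_, h2⟩ := Bool.and_eq_true_iff.1 (show and (Nat.beq V 0) (k D) = true from h)
    exact ⟨D, h2⟩
  | succ f ih =>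
    intro V D k h
    rw [fin] at h
    cases h0 : Nat.beq V 0 with
    | true =>
      rw [h0, cond_true] at h
      exact ⟨D, h⟩
    | false =>
      rw [h0, cond_false] at h
      cases h1 : Nat.ble (nib D 0) 5 with
      | true =>
        rw [h1, cond_true] at h
        exact ih _ _ _ h
      | false =>
      rw [h1, cond_false] at h
      cases h2 : Nat.beq (nib D 0) 6 with
      | true =>
        rw [h2, cond_true] at h
        exact ih _ _ _ h
      | false =>
      rw [h2, cond_false] at h
      cases h3 : Nat.beq (nib D 0) 7 with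
      | true =>
        rw [h3, cond_true] at h
        exact ih _ _ _ h
      | false =>
      rw [h3, cond_false] at h
      exact ih _ _ _ h

theorem fin_spec {n R N : ℕ} (hn : n < 10) (hR : Rng n R) {G : SimpleGraph (Fin (n + 1))}
    {H : SimpleGraph (Fin n)} (ok : Ok n R N G H) (ho : IsObstruction 4 G) :
    ∀ (f V D : ℕ) (k : ℕ → Bool), V.testBit N = true → fin n (n + 1) R f V D k = true →
      InS G := by
  intro f
  induction f with
  | zero =>
    intro V D k hV h
    obtain ⟨h1, _⟩ := Bool.and_eq_true_iff.1 (show and (Nat.beq V 0) (k D) = true from h)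
    have h0 : V = 0 := Nat.eq_of_beq_eq_true h1
    rw [h0] at hV
    simp at hV
  | succ f ih =>
    intro V D k hV h
    rw [fin] at h
    cases h0 : Nat.beq V 0 with
    | true =>
      have h1 : V = 0 := Nat.eq_of_beq_eq_true h0
      rw [h1] at hV
      simp at hV
    | false =>
      rw [h0, cond_false] at h
      cases h1 : Nat.ble (nib D 0) 5 with
      | true =>
        rw [h1, cond_true] at h
        exact ih _ _ _ (con_spec hn hR ok hV) h
      | false =>
      rw [h1, cond_false] at h
      cases h2 : Nat.beq (nib D 0) 6 with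
      | true =>
        rw [h2, cond_true] at h
        exact ih _ _ _ (ordS_spec hn hR ok.lt ok.mat ho.1 hV) h
      | false =>
      rw [h2, cond_false] at h
      cases h3 : Nat.beq (nib D 0) 7 with
      | true =>
        rw [h3, cond_true] at h
        exact ih _ _ _ (minS_spec hn hR ok.lt ok.mat ok.matH ho hV) h
      | false =>
      rw [h3, cond_false] at h
      rcases isoS_spec (r := Nat.land D 0xffffffffffffffffff) hn hR ok.lt ok.mat hV with h4 | h4
      · exact ih _ _ _ h4 h
      · exact h4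

/-- F masks the matrices of order n -/
def Full (n F : ℕ) : Prop := ∀ j, F.testBit j = true → j / 16 < n ∧ j % 16 < n

theorem rng_land {n F x : ℕ} (hF : Full n F) : Rng n (Nat.land x F) := by
  intro j hj
  have h : (x &&& F).testBit j = true := hj
  rw [Nat.testBit_and, Bool.and_eq_true] at h
  exact hF j h.2

/-- what the final level proves about the matrix R -/
def QF (n R : ℕ) : Prop := ∀ (N : ℕ) (G : SimpleGraph (Fin (n + 1))) (H : SimpleGraph (Fin n)),
  Ok n R N G H → IsObstruction 4 G → InS G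

theorem stF_spec {n F : ℕ} (hn : n < 10) (hF : Full n F) :
    ∀ arr D k, stF n (n + 1) F arr D k = true →
      QF n (Nat.land arr F) ∧ ∃ D', k D' = true := by
  intro arr D k h
  refine ⟨?_, fin_cont _ _ _ _ h⟩
  intro N G H ok ho
  exact fin_spec hn (rng_land hF) ok ho _ _ _ _ (V0_bit hn.le ok.lt ok.three ok.five) h

/-! the intermediate machine -/

theorem qk_spec {n R B N : ℕ} (hn : n < 10) (hR : Rng n R) (hN : N < 2 ^ n)
    {G : SimpleGraph (Fin (n + 1))} {H : SimpleGraph (Fin n)} (hG : Mat (n + 1) (ext R n N) G)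
    (hH : Mat n R H) (hB : ∀ w, B.testBit w = true → ∃ hw : w < n, Bad H ⟨w, hw⟩)
    (he : ExtP (n + 1) G) : qk B N = false := by
  classical
  cases hq : qk B N with
  | false => rfl
  | true =>
  exfalso
  have hcc := adj_cc hn hR hN hG hH
  have hcl := adj_cl hn hR hN hG
  have h1 : Nat.add 2 (pop N) ≤ Nat.add (pop (Nat.land B (Nat.xor N 1023)))
      (cond (Nat.ble (pop N) 2) 1 0) := Nat.le_of_ble_eq_true hq
  have h2 := pr_of_ext he (Fin.last n)
  rw [dg_last hn.le hN hcl] at h2
  have hb : ∀ j, (Nat.land B (Nat.xor N 1023)).testBit j = true →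
      B.testBit j = true ∧ ¬ N.testBit j = true := by
    intro j hj
    have hj' : (B &&& (N ^^^ 1023)).testBit j = true := hj
    rw [Nat.testBit_and, Bool.and_eq_true] at hj'
    refine ⟨hj'.1, ?_⟩
    intro hNj
    obtain ⟨hjn, _⟩ := hB j hj'.1
    have h10 : Nat.testBit 1023 j = true := by
      have : (1023 : ℕ) = 2 ^ 10 - 1 := by norm_num
      rw [this, Nat.testBit_two_pow_sub_one]
      simp
      omega
    rw [Nat.testBit_xor, hNj, h10] at hj'
    simp at hj'
  have h3 := pop_card (m := Nat.land B (Nat.xor N 1023)) hn.le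
    (fun j hj => (hB j (hb j hj).1).1)
  rw [h3] at h1
  set T : Finset (Fin n) := Finset.univ.filter fun i : Fin n =>
    (Nat.land B (Nat.xor N 1023)).testBit i = true with hT
  have hTbad : ∀ i ∈ T, Bad G i.castSucc := by
    intro i hi
    rw [hT, Finset.mem_filter] at hi
    have := hb i hi.2
    obtain ⟨_, hbad⟩ := hB i this.1
    exact bad_castSucc hcc hcl hbad this.2
  by_cases hp : pop N ≤ 2
  · have h4 : Nat.ble (pop N) 2 = true := Nat.ble_eq_true_of_le hp
    rw [h4, cond_true] at h1
    have h5 : Bad G (Fin.last n) := bad_of_dg (by rw [dg_last hn.le hN hcl]; exact hp)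
    have h6 : ((insert (Fin.last n) (T.map Fin.castSuccEmb) : Finset (Fin (n + 1))) :
        Set (Fin (n + 1))) ⊆ {u | Bad G u} := by
      intro u hu
      rw [Finset.mem_coe, Finset.mem_insert, Finset.mem_map] at hu
      rcases hu with rfl | ⟨i, hi, rfl⟩
      · exact h5
      · exact hTbad i hi
    have h7 := (Set.encard_le_encard h6).trans h2
    rw [Set.encard_coe_eq_coe_finsetCard, Finset.card_insert_of_notMem, Finset.card_map] at h7
    · have h8 : T.card + 1 ≤ pop N + 1 := by exact_mod_cast h7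
      have h9 : 2 + pop N ≤ T.card + 1 := h1
      omega
    · simp only [Finset.mem_map, not_exists, not_and]
      intro i _ h
      exact (Fin.castSucc_lt_last i).ne h
  · have h4 : Nat.ble (pop N) 2 = false := by
      cases h : Nat.ble (pop N) 2 with
      | true => exact absurd (Nat.le_of_ble_eq_true h) hp
      | false => rfl
    rw [h4, cond_false] at h1
    have h6 : ((T.map Fin.castSuccEmb : Finset (Fin (n + 1))) : Set (Fin (n + 1))) ⊆
        {u | Bad G u} := by
      intro u hu
      rw [Finset.mem_coe, Finset.mem_map] at hu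
      obtain ⟨i, hi, rfl⟩ := hu
      exact hTbad i hi
    have h7 := (Set.encard_le_encard h6).trans h2
    rw [Set.encard_coe_eq_coe_finsetCard, Finset.card_map] at h7
    have h8 : T.card ≤ pop N + 1 := by exact_mod_cast h7
    have h9 : 2 + pop N ≤ T.card + 0 := h1
    omega

theorem bsF_spec {n R : ℕ} (hn : n ≤ 10) {H : SimpleGraph (Fin n)} (hH : Mat n R H) :
    ∀ (s w v : ℕ), (bsF n R s w).testBit v = true → ∃ hv : v < n, Bad H ⟨v, hv⟩ := by
  intro s
  induction s with
  | zero =>
    intro w v h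
    have h0 : bsF n R 0 w = 0 := rfl
    rw [h0] at h
    simp at h
  | succ s ih =>
    intro w v h
    have h0 : bsF n R (s + 1) w = cond (badF n R w)
      (Nat.lor (Nat.shiftLeft 1 (nib w 0)) (bsF n R s (Nat.shiftRight w 20)))
      (bsF n R s (Nat.shiftRight w 20)) := rfl
    rw [h0] at h
    cases hc : badF n R w with
    | false =>
      rw [hc, cond_false] at h
      exact ih _ _ h
    | true =>
      rw [hc, cond_true, one_shl] at h
      have h1 : (2 ^ (nib w 0) ||| bsF n R s (Nat.shiftRight w 20)).testBit v = true := h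
      rw [Nat.testBit_or, Bool.or_eq_true, Nat.testBit_two_pow] at h1
      rcases h1 with h2 | h2
      · have h3 : nib w 0 = v := by simpa using h2
        rw [← h3]
        exact badF_bad hn hH hc
      · exact ih _ _ h2

/-- entry number i of the array -/
def ent (n F arr i : ℕ) : ℕ := Nat.land (Nat.shiftRight arr (Nat.mul (Nat.mul 16 n) i)) F

theorem im_cont {n m F' arr' cnt R B : ℕ} {pr : Bool} : ∀ (f V D : ℕ) (k : ℕ → Bool),
      im n m F' arr' cnt pr R B f V D k = true → ∃ D', k D' = true := by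
  intro f
  induction f with
  | zero =>
    intro V D k h
    obtain ⟨_, h2⟩ := Bool.and_eq_true_iff.1 (show and (Nat.beq V 0) (k D) = true from h)
    exact ⟨D, h2⟩
  | succ f ih =>
    intro V D k h
    rw [im] at h
    cases h0 : Nat.beq V 0 with
    | true =>
      rw [h0, cond_true] at h
      exact ⟨D, h⟩
    | false =>
      rw [h0, cond_false] at h
      cases h1 : and pr (qk B (Nat.log2 V)) with
      | true =>
        rw [h1, cond_true] at h
        exact ih _ _ _ h
      | false =>
      rw [h1, cond_false] at h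
      cases h2 : Nat.beq (nib D 0) 0 with
      | true =>
        rw [h2, cond_true] at h
        exact ih _ _ _ (Bool.and_eq_true_iff.1 h).2
      | false =>
      rw [h2, cond_false] at h
      cases h3 : Nat.beq (nib D 0) 7 with
      | true =>
        rw [h3, cond_true] at h
        exact ih _ _ _ h
      | false =>
      rw [h3, cond_false] at h
      obtain ⟨D', h4⟩ := dead_cont _ _ _ _ (Bool.and_eq_true_iff.1 h).2
      exact ih _ _ _ h4

theorem im_spec {n F' arr' cnt R B N : ℕ} {pr : Bool} (hn : n + 1 < 10) (hR : Rng n R)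
    (hN : N < 2 ^ n) {G : SimpleGraph (Fin (n + 1))} {H : SimpleGraph (Fin n)}
    (hG : Mat (n + 1) (ext R n N) G) (hH : Mat n R H) (hp : IsPartialKTree 4 G)
    (he : pr = true → ExtP (n + 1) G)
    (hB : ∀ w, B.testBit w = true → ∃ hw : w < n, Bad H ⟨w, hw⟩) :
    ∀ (f V D : ℕ) (k : ℕ → Bool), V.testBit N = true →
      im n (n + 1) F' arr' cnt pr R B f V D k = true →
      ∃ i, i < cnt ∧ Rep (n + 1) (ent (n + 1) F' arr' i) G := by
  have hn' : n < 10 := by omega
  have hN' := lt1024 hn'.le hN
  intro f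
  induction f with
  | zero =>
    intro V D k hV h
    obtain ⟨h1, _⟩ := Bool.and_eq_true_iff.1 (show and (Nat.beq V 0) (k D) = true from h)
    have h0 : V = 0 := Nat.eq_of_beq_eq_true h1
    rw [h0] at hV
    simp at hV
  | succ f ih =>
    intro V D k hV h
    rw [im] at h
    cases h0 : Nat.beq V 0 with
    | true =>
      have h1 : V = 0 := Nat.eq_of_beq_eq_true h0
      rw [h1] at hV
      simp at hV
    | false =>
      rw [h0, cond_false] at h
      cases h1 : and pr (qk B (Nat.log2 V)) with
      | true =>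
        rw [h1, cond_true] at h
        refine ih _ _ _ (xor_one_bit hV ?_) h
        rintro rfl
        obtain ⟨h2, h3⟩ := Bool.and_eq_true_iff.1 h1
        rw [qk_spec hn' hR hN hG hH hB (he h2)] at h3
        exact absurd h3 (by simp)
      | false =>
      rw [h1, cond_false] at h
      cases h2 : Nat.beq (nib D 0) 0 with
      | true =>
        rw [h2, cond_true] at h
        obtain ⟨h3, h4⟩ := Bool.and_eq_true_iff.1 h
        by_cases hNl : N = Nat.log2 V
        · obtain ⟨h5, h6⟩ := Bool.and_eq_true_iff.1 (show and (Nat.ble (Nat.succ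
            (idF (Nat.land D 0xfffffffffffffff))) cnt)
            (isoF (n + 1) (ext R n (Nat.log2 V)) (Nat.land (Nat.shiftRight arr'
              (Nat.mul (Nat.mul 16 (n + 1)) (idF (Nat.land D 0xfffffffffffffff)))) F')
              (Nat.shiftRight (Nat.land D 0xfffffffffffffff) 20)) = true from h3)
          rw [← hNl] at h6
          exact ⟨_, Nat.le_of_ble_eq_true h5,
            isoF_spec (by omega) (by omega) (rng_ext' hn' hR hN) hG h6⟩
        · exact ih _ _ _ (xor_one_bit hV hNl) h4
      | false =>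
      rw [h2, cond_false] at h
      cases h3 : Nat.beq (nib D 0) 7 with
      | true =>
        rw [h3, cond_true] at h
        refine ih _ _ _ ?_ h
        unfold rejS
        cases hc : minF (n + 1) (ext R n (xS (Nat.land D 0xffffffffffffffffffffffffffffff)))
            (Nat.land D 0xffffffffffffffffffffffffffffff) with
        | false => exact hV
        | true =>
          rw [cond_true]
          refine xor_sub_bit hV ?_
          rw [xU_bit hN']
          rintro ⟨_, hX⟩
          exact min_no (by omega) (fun x y h => (hG x y).2 (ext_mono hn' hR hN hX x y h)) hc hp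
      | false =>
      rw [h3, cond_false] at h
      obtain ⟨h4, h5⟩ := Bool.and_eq_true_iff.1 h
      by_cases hNl : N = Nat.log2 V
      · exfalso
        rw [← hNl] at h5
        have hR' := rng_ext' hn' hR hN
        obtain ⟨G2, v, ⟨e⟩, g1, g2, g3, g4⟩ := he h4
        obtain ⟨N2, G2', H2', -, ok⟩ := ok_of_ext (by omega) hR' ⟨G, hG, ⟨e⟩⟩ g1 g2 g3 g4
        exact dead_spec (by omega) hR' ok _ _ _ _
          (V0_bit (by omega) ok.lt ok.three ok.five) h5
      · obtain ⟨D', h6⟩ := dead_cont _ _ _ _ h5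
        exact ih _ _ _ (xor_one_bit hV hNl) h6

theorem aph_spec {n R N : ℕ} (hn : n < 10) (hR : Rng n R) (hN : N < 2 ^ n)
    {H : SimpleGraph (Fin n)} (hH : Mat n R H)
    (hmin : ∀ w : Fin n, pop N ≤ dg H w + if N.testBit w = true then 1 else 0) :
    ∀ (w V : ℕ), V.testBit N = true → (aph n R w V).testBit N = true := by
  intro w
  induction w with
  | zero =>
    intro V hV
    exact hV
  | succ w ih =>
    intro V hV
    exact ih _ (conA_spec hn hR hN hH hmin hV)

/-- what an intermediate level proves about the matrix R -/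
def QI (pr : Bool) (n F' arr' cnt R : ℕ) : Prop :=
  ∀ (N : ℕ) (G : SimpleGraph (Fin (n + 1))) (H : SimpleGraph (Fin n)), N < 2 ^ n →
    Mat (n + 1) (ext R n N) G → Mat n R H → IsPartialKTree 4 G → (pr = true → ExtP (n + 1) G) →
    pop N ≤ 4 → (∀ w : Fin n, pop N ≤ dg H w + if N.testBit w = true then 1 else 0) →
    ∃ i, i < cnt ∧ Rep (n + 1) (ent (n + 1) F' arr' i) G

theorem stI_spec {n F F' arr' cnt : ℕ} {pr : Bool} (hn : n + 1 < 10) (hF : Full n F) :
    ∀ arr D k, stI n (n + 1) F F' arr' cnt pr arr D k = true →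
      QI pr n F' arr' cnt (Nat.land arr F) ∧ ∃ D', k D' = true := by
  intro arr D k h
  refine ⟨?_, im_cont _ _ _ _ h⟩
  intro N G H hN hG hH hp he h4 hmin
  have hR := rng_land (x := arr) hF
  have hN' := lt1024 (by omega : n ≤ 10) hN
  refine im_spec hn hR hN hG hH hp he (bsF_spec (by omega) hH _ _) _ _ _ _
    (aph_spec (by omega) hR hN hH hmin _ _ ?_) h
  rw [le_bit (by norm_num) hN']
  exact ⟨fullM_bit hN, h4⟩

/-- all partial 4-trees (satisfying the condition) of order n are in the array -/
def Compl (pr : Bool) (n F arr cnt : ℕ) : Prop :=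
  ∀ H : SimpleGraph (Fin n), IsPartialKTree 4 H → (pr = true → ExtP n H) →
    ∃ i, i < cnt ∧ Rep n (ent n F arr i) H

theorem isPartial_iso {V W : Type*} [Finite V] [Finite W] {G : SimpleGraph V} {H : SimpleGraph W}
    (e : G ≃g H) (hG : IsPartialKTree 4 G) : IsPartialKTree 4 H := by
  obtain ⟨t, T, f, hT, hf, hadj⟩ := hG
  refine ⟨t, T, fun x => f (e.symm x), hT, hf.comp e.symm.injective, ?_⟩
  intro a b hab
  exact hadj _ _ (e.symm.map_rel_iff.2 hab)

theorem rep_trans {n R : ℕ} {G H : SimpleGraph (Fin n)} (e : G ≃g H) (h : Rep n R H) :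
    Rep n R G := by
  obtain ⟨G', h1, ⟨e'⟩⟩ := h
  exact ⟨G', h1, ⟨e.trans e'⟩⟩

theorem obs_iso {n : ℕ} {G H : SimpleGraph (Fin n)} (e : G ≃g H) (h : IsObstruction 4 G) :
    IsObstruction 4 H := by
  refine ⟨fun hp => h.1 (isPartial_iso e.symm hp), ?_⟩
  intro m K hK hne
  refine h.2 m K ?_ ⟨fun f => hne.false (f.trans e)⟩
  obtain ⟨f, hf1, hf2⟩ := hK
  refine ⟨fun x => f (e x), ?_, ?_⟩
  · intro w
    refine reach_induce (hf1 w) e.symm ?_ ?_ ?_
    · intro x hx
      show f (e (e.symm x)) = some w
      rw [e.apply_symm_apply]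
      exact hx
    · intro x _ y _ hxy
      exact Or.inr (e.symm.map_rel_iff.2 hxy)
    · intro y hy
      exact ⟨e y, hy, e.symm_apply_apply y⟩
  · intro w w' hww
    obtain ⟨v, v', h1, h2, h3⟩ := hf2 w w' hww
    refine ⟨e.symm v, e.symm v', ?_, ?_, e.symm.map_rel_iff.2 h3⟩
    · show f (e (e.symm v)) = some w
      rw [e.apply_symm_apply]
      exact h1
    · show f (e (e.symm v')) = some w'
      rw [e.apply_symm_apply]
      exact h2

theorem levelI {n F F' arr arr' c cnt : ℕ} {pr : Bool} (hn : n < 10) (hF : Full n F)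
    (hc : Compl false n F arr c) (hq : ∀ i, i < c → QI pr n F' arr' cnt (ent n F arr i)) :
    Compl pr (n + 1) F' arr' cnt := by
  intro G hG hpr
  obtain ⟨v0, hv0⟩ := exists_dg_le hG
  obtain ⟨v, -, hv⟩ := Finset.exists_min_image Finset.univ (dg G) ⟨v0, Finset.mem_univ _⟩
  have hv4 : dg G v ≤ 4 := (hv v0 (Finset.mem_univ _)).trans hv0
  obtain ⟨i, hi, hrep⟩ := hc _ (partial_minor hG (minor_delVertex G v)) (by simp)
  obtain ⟨N, G', H', e, hN, hM, hH', hev, -, hcc, hcl⟩ := ext_rep hn (rng_land hF) hrep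
  have hlast := dg_last hn.le hN hcl
  have hle : ∀ x, dg G' (Fin.last n) ≤ dg G' x := by
    intro x
    rw [← hev, dg_iso e v]
    have := hv (e.symm x) (Finset.mem_univ _)
    rw [← dg_iso e (e.symm x), e.apply_symm_apply] at this
    exact this
  have hp4 : pop N ≤ 4 := by
    rw [← hlast, ← hev, dg_iso e v]
    exact hv4
  obtain ⟨j, hj, hrep'⟩ := hq i hi N G' H' hN hM hH' (isPartial_iso e hG)
    (fun h => extP_iso e (hpr h)) hp4
    (by
      intro w
      rw [← hlast]
      have := hle (Fin.castSucc w)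
      rw [dg_castSucc hcc hcl] at this
      exact this)
  exact ⟨j, hj, rep_trans e hrep'⟩

theorem levelF {n F arr c : ℕ} {pr : Bool} (hn : n < 10) (hF : Full n F)
    (hc : Compl pr n F arr c) (hq : ∀ i, i < c → QF n (ent n F arr i)) :
    ∀ G : SimpleGraph (Fin (n + 1)), IsObstruction 4 G → InS G := by
  intro G hG
  obtain ⟨v0, hv0⟩ := exists_dg_le_five hG
  obtain ⟨v, -, hv⟩ := Finset.exists_min_image Finset.univ (dg G) ⟨v0, Finset.mem_univ _⟩
  have hv5 : dg G v ≤ 5 := (hv v0 (Finset.mem_univ _)).trans hv0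
  have hv3 : 3 ≤ dg G v := by
    by_contra hcon
    exact not_bad hG v (bad_of_dg (by omega))
  have hpart : IsPartialKTree 4 (G.comap v.succAbove) :=
    hG.2 _ _ (minor_delVertex G v) (iso_card_ne (by omega))
  have hmin : ∀ x, dg G v ≤ dg G x := fun x => hv x (Finset.mem_univ _)
  obtain ⟨i, hi, hrep⟩ := hc _ hpart
    (fun _ => ⟨G, v, ⟨SimpleGraph.Iso.refl⟩, fun u => not_bad hG u, hmin, hv3, hv5⟩)
  obtain ⟨N, G', H', ⟨e⟩, ok⟩ := ok_of_ext hn (rng_land hF) hrep (fun u => not_bad hG u) hmin
    hv3 hv5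
  exact inS_iso e (hq i hi N G' H' ok (obs_iso e hG))

theorem ent_shift (n F arr i0 j : ℕ) :
    Nat.land ((Nat.shiftRight arr (16 * n * i0)) >>> (16 * n * j)) F = ent n F arr (i0 + j) := by
  have h : (arr >>> (16 * n * i0)) >>> (16 * n * j) = arr >>> (16 * n * (i0 + j)) := by
    rw [← Nat.shiftRight_add]
    congr 1
    ring
  show Nat.land ((arr >>> (16 * n * i0)) >>> (16 * n * j)) F = _
  rw [h]
  rfl

theorem chunkI {n F F' arr arr' cnt D : ℕ} {pr : Bool} (i0 c : ℕ) (hn : n + 1 < 10)
    (hF : Full n F)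
    (h : lvl (stI n (n + 1) F F' arr' cnt pr) (16 * n) c (Nat.shiftRight arr (16 * n * i0)) D
      = true) : ∀ i, i0 ≤ i → i < i0 + c → QI pr n F' arr' cnt (ent n F arr i) := by
  intro i h1 h2
  have h3 := lvl_spec (P := fun x => QI pr n F' arr' cnt (Nat.land x F)) (stI_spec hn hF) c _ _ h
    (i - i0) (by omega)
  rw [ent_shift, show i0 + (i - i0) = i by omega] at h3
  exact h3

theorem chunkF {n F arr D : ℕ} (i0 c : ℕ) (hn : n < 10) (hF : Full n F)
    (h : lvl (stF n (n + 1) F) (16 * n) c (Nat.shiftRight arr (16 * n * i0)) D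
      = true) : ∀ i, i0 ≤ i → i < i0 + c → QF n (ent n F arr i) := by
  intro i h1 h2
  have h3 := lvl_spec (P := fun x => QF n (Nat.land x F)) (stF_spec hn hF) c _ _ h
    (i - i0) (by omega)
  rw [ent_shift, show i0 + (i - i0) = i by omega] at h3
  exact h3

end Pool.Agent.TW4.So
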