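import Pool.Agent.TW4.So.Lev

/-! The pruned level, with constraints on the masks. -/

namespace Pool.Agent.TW4.So

open Pool.Agent.TW4 Pool.Agent.TW4.Sm

/-- one constraint (24 digits) on the masks of the pruned level -/
def conJ (n R V e : ℕ) : ℕ :=
  cond (Nat.beq (nib e 0) 1)
    (cond (and (Nat.beq (nib e 2) 15) (badF n R (Nat.shiftRight e 4))) (cw V (nib e 1)) V)
  (cond (Nat.beq (nib e 0) 2)
    (cond (and (and (Nat.ble (Nat.succ (nib e 1)) n)
        (Nat.beq (Nat.land (row R (nib e 1))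
          (Nat.lor (Nat.shiftLeft 1 (nib e 2)) (Nat.shiftLeft 1 (nib e 3)))) (row R (nib e 1))))
        (ae R (nib e 2) (nib e 3)))
      (Nat.xor V (cw (cw (cw V (nib e 1)) (nib e 2)) (nib e 3))) V)
    (cond (and (ae R (nib e 1) (nib e 2)) (and (ae R (nib e 1) (nib e 3)) (ae R (nib e 2) (nib e 3))))
      (Nat.xor V (Nat.land V (Nat.shiftLeft 1 (Nat.lor (Nat.lor (Nat.shiftLeft 1 (nib e 1))
        (Nat.shiftLeft 1 (nib e 2))) (Nat.shiftLeft 1 (nib e 3)))))) V))

/-- g constraints -/
def fph (n R : ℕ) : ℕ → ℕ → ℕ → ℕ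
  | 0, _, V => V
  | g + 1, D, V => fph n R g (Nat.shiftRight D 24) (conJ n R V (Nat.land D 0xffffff))

/-- one graph of the pruned level -/
def stJ (n m F F' arr' cnt : ℕ) (arr D : ℕ) (k : ℕ → Bool) : Bool :=
  im n m F' arr' cnt true (Nat.land arr F)
    (bsF n (Nat.land arr F) (nib D 0) (Nat.shiftRight D 12)) 2048
    (fph n (Nat.land arr F) (Nat.land (Nat.shiftRight D 4) 255)
      (Nat.shiftRight D (Nat.add 12 (Nat.mul 20 (nib D 0))))
      (aph n (Nat.land arr F) n (Nat.xor (le (fullM n) 4) (le (fullM n) 1))))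
    (Nat.shiftRight D (Nat.add (Nat.add 12 (Nat.mul 20 (nib D 0)))
      (Nat.mul 24 (Nat.land (Nat.shiftRight D 4) 255)))) k

/-- the neighbours of u form a clique with at most 3 vertices -/
def Simp {n : ℕ} (G : SimpleGraph (Fin n)) (u : Fin n) : Prop :=
  G.IsClique {a | G.Adj u a} ∧ {a | G.Adj u a}.encard ≤ 3

theorem simp_of_ext {n : ℕ} {H : SimpleGraph (Fin n)} (h : ExtP n H) (u : Fin n) :
    ¬ Simp H u := by
  obtain ⟨G, v, ⟨e⟩, hg, -, -, -⟩ := h
  rintro ⟨h1, h2⟩
  have hsub : {a | G.Adj (v.succAbove (e.symm u)) a ∧ a ≠ v} ⊆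
      (fun a => v.succAbove (e.symm a)) '' {a | H.Adj u a} := by
    rintro a ⟨ha, hav⟩
    obtain ⟨i, rfl⟩ := Fin.exists_succAbove_eq hav
    refine ⟨e i, ?_, ?_⟩
    · have h3 : (G.comap v.succAbove).Adj (e.symm u) i := ha
      have h4 := e.map_rel_iff.2 h3
      rw [e.apply_symm_apply] at h4
      exact h4
    · show v.succAbove (e.symm (e i)) = _
      rw [e.symm_apply_apply]
  refine hg (v.succAbove (e.symm u)) ⟨v, ?_, ?_⟩
  · intro a ha b hb hab
    obtain ⟨i, hi, rfl⟩ := hsub ha
    obtain ⟨j, hj, rfl⟩ := hsub hb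
    have hij : i ≠ j := by
      rintro rfl
      exact hab rfl
    have h3 := e.symm.map_rel_iff.2 (h1 hi hj hij)
    exact h3
  · exact (Set.encard_le_encard hsub).trans ((Set.encard_image_le _ _).trans h2)

theorem encard_three {α : Type*} (a b c : α) : ({a, b, c} : Set α).encard ≤ 3 := by
  refine (Set.encard_insert_le _ _).trans ?_
  have e : (3 : ℕ∞) = 2 + 1 := by norm_num
  rw [e]
  refine add_le_add ?_ le_rfl
  refine (Set.encard_insert_le _ _).trans ?_
  rw [Set.encard_singleton]
  norm_num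

theorem conJ_spec {n R V e N : ℕ} (hn : n < 10) (hR : Rng n R) (hN : N < 2 ^ n)
    {G : SimpleGraph (Fin (n + 1))} {H : SimpleGraph (Fin n)} (hG : Mat (n + 1) (ext R n N) G)
    (hH : Mat n R H) (he : ExtP (n + 1) G) (hV : V.testBit N = true) :
    (conJ n R V e).testBit N = true := by
  have hN' := lt1024 hn.le hN
  have hcc := adj_cc hn hR hN hG hH
  have hcl := adj_cl hn hR hN hG
  unfold conJ
  cases h1 : Nat.beq (nib e 0) 1 with
  | true =>
    rw [cond_true]
    cases hb : and (Nat.beq (nib e 2) 15) (badF n R (Nat.shiftRight e 4)) with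
    | false => exact hV
    | true =>
      rw [cond_true, cw_bit hN']
      refine ⟨hV, ?_⟩
      obtain ⟨k1, k2⟩ := Bool.and_eq_true_iff.1 hb
      have k3 := Nat.eq_of_beq_eq_true k1
      obtain ⟨hw, h5, h6⟩ := badF_spec hn.le hH k2
      have e0 : nib (Nat.shiftRight e 4) 0 = nib e 1 := nib_shift e 1 0
      have e1 : nib (Nat.shiftRight e 4) 1 = 15 := (nib_shift e 1 1).trans k3
      have hset : {a | H.Adj ⟨nib (Nat.shiftRight e 4) 0, hw⟩ a ∧
          (a : ℕ) ≠ nib (Nat.shiftRight e 4) 1} =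
          {a | H.Adj ⟨nib (Nat.shiftRight e 4) 0, hw⟩ a} := by
        ext a
        constructor
        · exact fun h => h.1
        · intro h
          refine ⟨h, ?_⟩
          rw [e1]
          have := a.2
          omega
      rw [hset] at h5 h6
      by_contra hcon
      rw [← e0] at hcon
      have hsub : {a | G.Adj (Fin.castSucc ⟨nib (Nat.shiftRight e 4) 0, hw⟩) a} ⊆
          Fin.castSucc '' {a | H.Adj ⟨nib (Nat.shiftRight e 4) 0, hw⟩ a} := by
        intro a ha
        rcases Fin.eq_castSucc_or_eq_last a with ⟨i, rfl⟩ | rfl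
        · exact ⟨i, (hcc _ _).1 ha, rfl⟩
        · exact absurd ((hcl _).1 ha) hcon
      refine simp_of_ext he (Fin.castSucc ⟨_, hw⟩) ⟨?_, ?_⟩
      · intro a ha b hb hab
        obtain ⟨i, hi, rfl⟩ := hsub ha
        obtain ⟨j, hj, rfl⟩ := hsub hb
        exact (hcc i j).2 (h5 hi hj (fun h => hab (by rw [h])))
      · exact (Set.encard_le_encard hsub).trans ((Set.encard_image_le _ _).trans h6)
  | false =>
  rw [cond_false]
  cases h2 : Nat.beq (nib e 0) 2 with
  | true =>
    rw [cond_true]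
    cases hb : and (and (Nat.ble (Nat.succ (nib e 1)) n)
        (Nat.beq (Nat.land (row R (nib e 1))
          (Nat.lor (Nat.shiftLeft 1 (nib e 2)) (Nat.shiftLeft 1 (nib e 3)))) (row R (nib e 1))))
        (ae R (nib e 2) (nib e 3)) with
    | false => exact hV
    | true =>
      rw [cond_true]
      refine xor_sub_bit hV ?_
      rw [cw_bit hN', cw_bit hN', cw_bit hN']
      rintro ⟨⟨⟨_, hw⟩, ha⟩, hb'⟩
      obtain ⟨k1, k2⟩ := Bool.and_eq_true_iff.1 hb
      obtain ⟨k3, k4⟩ := Bool.and_eq_true_iff.1 k1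
      have k5 := Nat.eq_of_beq_eq_true k4
      rw [one_shl, one_shl] at k5
      have k6 : (row R (nib e 1)) &&& (2 ^ nib e 2 ||| 2 ^ nib e 3) = row R (nib e 1) := k5
      have hw1 := bit_lt hN hw
      have ha1 := bit_lt hN ha
      have hb1 := bit_lt hN hb'
      have hsub : ∀ i : Fin n, H.Adj ⟨nib e 1, hw1⟩ i → (i : ℕ) = nib e 2 ∨ (i : ℕ) = nib e 3 := by
        intro i hi
        have hbit : (row R (nib e 1)).testBit i = true := by
          rw [row_bit]
          have := i.2
          exact ⟨by omega, (hH _ _).1 hi⟩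
        rw [← k6, Nat.testBit_and, Bool.and_eq_true, Nat.testBit_or, Bool.or_eq_true,
          Nat.testBit_two_pow, Nat.testBit_two_pow] at hbit
        rcases hbit.2 with h | h
        · exact Or.inl (Eq.symm (of_decide_eq_true h))
        · exact Or.inr (Eq.symm (of_decide_eq_true h))
      have hsubG : {a | G.Adj (Fin.castSucc ⟨nib e 1, hw1⟩) a} ⊆
          {Fin.castSucc ⟨nib e 2, ha1⟩, Fin.castSucc ⟨nib e 3, hb1⟩, Fin.last n} := by
        intro a hadj
        rcases Fin.eq_castSucc_or_eq_last a with ⟨i, rfl⟩ | rfl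
        · rcases hsub i ((hcc _ _).1 hadj) with h | h
          · exact Or.inl (by rw [show i = ⟨nib e 2, ha1⟩ from Fin.ext h])
          · exact Or.inr (Or.inl (by rw [show i = ⟨nib e 3, hb1⟩ from Fin.ext h]))
        · exact Or.inr (Or.inr rfl)
      have hab := ae_spec hH k2 ha1 hb1
      have hal : G.Adj (Fin.castSucc ⟨nib e 2, ha1⟩) (Fin.last n) := (hcl _).2 ha
      have hbl : G.Adj (Fin.castSucc ⟨nib e 3, hb1⟩) (Fin.last n) := (hcl _).2 hb'
      have habG : (Fin.castSucc ⟨nib e 2, ha1⟩ : Fin (n + 1)) = Fin.castSucc ⟨nib e 3, hb1⟩ ∨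
          G.Adj (Fin.castSucc ⟨nib e 2, ha1⟩) (Fin.castSucc ⟨nib e 3, hb1⟩) := by
        rcases hab with h | h
        · left
          exact congrArg Fin.castSucc (Fin.ext h)
        · exact Or.inr ((hcc _ _).2 h)
      refine simp_of_ext he (Fin.castSucc ⟨nib e 1, hw1⟩) ⟨?_, ?_⟩
      · intro x hx y hy hxy
        rcases hsubG hx with rfl | rfl | rfl
        · rcases hsubG hy with rfl | rfl | rfl
          · exact absurd rfl hxy
          · rcases habG with h | h
            · exact absurd h hxy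
            · exact h
          · exact hal
        · rcases hsubG hy with rfl | rfl | rfl
          · rcases habG with h | h
            · exact absurd h.symm hxy
            · exact h.symm
          · exact absurd rfl hxy
          · exact hbl
        · rcases hsubG hy with rfl | rfl | rfl
          · exact hal.symm
          · exact hbl.symm
          · exact absurd rfl hxy
      · exact (Set.encard_le_encard hsubG).trans (encard_three _ _ _)
  | false =>
  rw [cond_false]
  cases hb : and (ae R (nib e 1) (nib e 2))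
      (and (ae R (nib e 1) (nib e 3)) (ae R (nib e 2) (nib e 3))) with
  | false => exact hV
  | true =>
    rw [cond_true]
    refine xor_sub_bit hV ?_
    intro hbit
    have hbit' : (V &&& (Nat.shiftLeft 1 (Nat.lor (Nat.lor (Nat.shiftLeft 1 (nib e 1))
        (Nat.shiftLeft 1 (nib e 2))) (Nat.shiftLeft 1 (nib e 3))))).testBit N = true := hbit
    rw [one_shl, one_shl, one_shl, one_shl, Nat.testBit_and, Nat.testBit_two_pow,
      Bool.and_eq_true] at hbit'
    have hNe : N = (2 ^ nib e 1 ||| 2 ^ nib e 2) ||| 2 ^ nib e 3 :=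
      Eq.symm (of_decide_eq_true hbit'.2)
    obtain ⟨k1, k2⟩ := Bool.and_eq_true_iff.1 hb
    obtain ⟨k3, k4⟩ := Bool.and_eq_true_iff.1 k2
    have hmem : ∀ j, N.testBit j = true ↔ j = nib e 1 ∨ j = nib e 2 ∨ j = nib e 3 := by
      intro j
      rw [hNe, Nat.testBit_or, Nat.testBit_or, Bool.or_eq_true, Bool.or_eq_true,
        Nat.testBit_two_pow, Nat.testBit_two_pow, Nat.testBit_two_pow, decide_eq_true_eq,
        decide_eq_true_eq, decide_eq_true_eq]
      constructor
      · rintro ((h | h) | h)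
        · exact Or.inl h.symm
        · exact Or.inr (Or.inl h.symm)
        · exact Or.inr (Or.inr h.symm)
      · rintro (h | h | h)
        · exact Or.inl (Or.inl h.symm)
        · exact Or.inl (Or.inr h.symm)
        · exact Or.inr h.symm
    have ha1 : nib e 1 < n := bit_lt hN ((hmem _).2 (Or.inl rfl))
    have hb1 : nib e 2 < n := bit_lt hN ((hmem _).2 (Or.inr (Or.inl rfl)))
    have hc1 : nib e 3 < n := bit_lt hN ((hmem _).2 (Or.inr (Or.inr rfl)))
    have lift : ∀ (u v : ℕ) (hu : u < n) (hv : v < n), ae R u v = true →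
        (Fin.castSucc ⟨u, hu⟩ : Fin (n + 1)) = Fin.castSucc ⟨v, hv⟩ ∨
          G.Adj (Fin.castSucc ⟨u, hu⟩) (Fin.castSucc ⟨v, hv⟩) := by
      intro u v hu hv h
      rcases ae_spec hH h hu hv with h | h
      · left
        exact congrArg Fin.castSucc (Fin.ext h)
      · exact Or.inr ((hcc _ _).2 h)
    have l1 := lift _ _ ha1 hb1 k1
    have l2 := lift _ _ ha1 hc1 k3
    have l3 := lift _ _ hb1 hc1 k4
    have hsubG : {a | G.Adj (Fin.last n) a} ⊆
        {Fin.castSucc ⟨nib e 1, ha1⟩, Fin.castSucc ⟨nib e 2, hb1⟩,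
          Fin.castSucc ⟨nib e 3, hc1⟩} := by
      intro a hadj
      rcases Fin.eq_castSucc_or_eq_last a with ⟨i, rfl⟩ | rfl
      · rcases (hmem i).1 ((hcl i).1 hadj.symm) with h | h | h
        · exact Or.inl (by rw [show i = ⟨nib e 1, ha1⟩ from Fin.ext h])
        · exact Or.inr (Or.inl (by rw [show i = ⟨nib e 2, hb1⟩ from Fin.ext h]))
        · exact Or.inr (Or.inr (by rw [show i = ⟨nib e 3, hc1⟩ from Fin.ext h]; rfl))
      · exact absurd hadj (SimpleGraph.irrefl _)
    refine simp_of_ext he (Fin.last n) ⟨?_, ?_⟩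
    · intro x hx y hy hxy
      rcases hsubG hx with rfl | rfl | rfl
      · rcases hsubG hy with rfl | rfl | rfl
        · exact absurd rfl hxy
        · exact l1.resolve_left hxy
        · exact l2.resolve_left hxy
      · rcases hsubG hy with rfl | rfl | rfl
        · exact (l1.resolve_left (Ne.symm hxy)).symm
        · exact absurd rfl hxy
        · exact l3.resolve_left hxy
      · rcases hsubG hy with rfl | rfl | rfl
        · exact (l2.resolve_left (Ne.symm hxy)).symm
        · exact (l3.resolve_left (Ne.symm hxy)).symm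
        · exact absurd rfl hxy
    · exact (Set.encard_le_encard hsubG).trans (encard_three _ _ _)

theorem fph_spec {n R N : ℕ} (hn : n < 10) (hR : Rng n R) (hN : N < 2 ^ n)
    {G : SimpleGraph (Fin (n + 1))} {H : SimpleGraph (Fin n)} (hG : Mat (n + 1) (ext R n N) G)
    (hH : Mat n R H) (he : ExtP (n + 1) G) : ∀ (g D V : ℕ), V.testBit N = true →
    (fph n R g D V).testBit N = true := by
  intro g
  induction g with
  | zero =>
    intro D V hV
    exact hV
  | succ g ih =>
    intro D V hV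
    exact ih _ _ (conJ_spec hn hR hN hG hH he hV)

theorem two_le {n R N : ℕ} (hn : n < 10) (hR : Rng n R) (hN : N < 2 ^ n)
    {G : SimpleGraph (Fin (n + 1))} (hG : Mat (n + 1) (ext R n N) G)
    (he : ExtP (n + 1) G) : 2 ≤ pop N := by
  by_contra hcon
  have hcl := adj_cl hn hR hN hG
  have h1 : {a | G.Adj (Fin.last n) a}.encard ≤ 1 := by
    rw [dg_encard, dg_last hn.le hN hcl]
    exact_mod_cast (by omega : pop N ≤ 1)
  refine simp_of_ext he (Fin.last n) ⟨?_, ?_⟩
  · intro a ha b hb hab
    exact absurd (Set.encard_le_one_iff.1 h1 a b ha hb) hab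
  · exact h1.trans (by norm_num)

theorem stJ_spec {n F F' arr' cnt : ℕ} (hn : n + 1 < 10) (hF : Full n F) :
    ∀ arr D k, stJ n (n + 1) F F' arr' cnt arr D k = true →
      QI true n F' arr' cnt (Nat.land arr F) ∧ ∃ D', k D' = true := by
  intro arr D k h
  refine ⟨?_, im_cont _ _ _ _ h⟩
  intro N G H hN hG hH hp he h4 hmin
  have hn' : n < 10 := by omega
  have hR := rng_land (x := arr) hF
  have hN' := lt1024 (by omega : n ≤ 10) hN
  refine im_spec hn hR hN hG hH hp he (bsF_spec (by omega) hH _ _) _ _ _ _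
    (fph_spec hn' hR hN hG hH (he rfl) _ _ _ (aph_spec hn' hR hN hH hmin _ _ ?_)) h
  have h2 := two_le hn' hR hN hG (he rfl)
  have e1 : (le (fullM n) 4).testBit N = true := (le_bit (by norm_num) hN').2 ⟨fullM_bit hN, h4⟩
  refine xor_sub_bit e1 ?_
  rw [le_bit (by norm_num) hN']
  rintro ⟨_, h⟩
  omega

theorem chunkJ {n F F' arr arr' cnt D : ℕ} (i0 c : ℕ) (hn : n + 1 < 10)
    (hF : Full n F)
    (h : lvl (stJ n (n + 1) F F' arr' cnt) (16 * n) c (Nat.shiftRight arr (16 * n * i0)) D
      = true) : ∀ i, i0 ≤ i → i < i0 + c → QI true n F' arr' cnt (ent n F arr i) := by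
  intro i h1 h2
  have h3 := lvl_spec (P := fun x => QI true n F' arr' cnt (Nat.land x F)) (stJ_spec hn hF) c _ _ h
    (i - i0) (by omega)
  rw [ent_shift, show i0 + (i - i0) = i by omega] at h3
  exact h3

end Pool.Agent.TW4.So
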