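import Pool.Agent.TW4.So.Data.F5_0
import Pool.Agent.TW4.So.Data.F6_0
import Pool.Agent.TW4.So.Data.F7_0
import Pool.Agent.TW4.So.Data.F8_0
import Pool.Agent.TW4.So.Data.F9_0
import Pool.Agent.TW4.So.Data.F9_1
import Pool.Agent.TW4.So.Data.F9_2
import Pool.Agent.TW4.So.Data.F9_3
import Pool.Agent.TW4.So.Data.F9_4
import Pool.Agent.TW4.So.Data.F9_5
import Pool.Agent.TW4.So.Data.F9_6
import Pool.Agent.TW4.So.Data.F9_7
import Pool.Agent.TW4.So.Data.F9_8
import Pool.Agent.TW4.So.Data.F9_9
import Pool.Agent.TW4.So.Data.F9_10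
import Pool.Agent.TW4.So.Data.F9_11
import Pool.Agent.TW4.So.Data.F9_12
import Pool.Agent.TW4.So.Data.I1_0
import Pool.Agent.TW4.So.Data.I2_0
import Pool.Agent.TW4.So.Data.I3_0
import Pool.Agent.TW4.So.Data.I4_0
import Pool.Agent.TW4.So.Data.I5_0
import Pool.Agent.TW4.So.Data.I6_0
import Pool.Agent.TW4.So.Data.I7_0
import Pool.Agent.TW4.So.Data.I7_1
import Pool.Agent.TW4.So.Data.I8_0
import Pool.Agent.TW4.So.Data.I8_1
import Pool.Agent.TW4.So.Data.I8_2
import Pool.Agent.TW4.So.Data.I8_3
import Pool.Agent.TW4.So.Data.I8_4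
import Pool.Agent.TW4.So.Data.I8_5
import Pool.Agent.TW4.So.Data.I8_6
import Pool.Agent.TW4.So.Data.I8_7
import Pool.Agent.TW4.So.Data.I8_8
import Pool.Agent.TW4.So.Data.I8_9

/-! Putting the levels together. -/

namespace Pool.Agent.TW4.So

open Pool.Agent.TW4 Pool.Agent.TW4.Sm

theorem allF5 : ∀ i, i < 34 → QF 5 (ent 5 F5 A5 i) := by
  intro i hi
  exact allF5_0 i (by omega) (by omega)

theorem allF6 : ∀ i, i < 155 → QF 6 (ent 6 F6 A6 i) := by
  intro i hi
  exact allF6_0 i (by omega) (by omega)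

theorem allF7 : ∀ i, i < 1029 → QF 7 (ent 7 F7 A7 i) := by
  intro i hi
  exact allF7_0 i (by omega) (by omega)

theorem allF8 : ∀ i, i < 11767 → QF 8 (ent 8 F8 A8 i) := by
  intro i hi
  exact allF8_0 i (by omega) (by omega)

theorem allF9 : ∀ i, i < 38869 → QF 9 (ent 9 F9 A9 i) := by
  intro i hi
  rcases Nat.lt_or_ge i 3606 with h0 | h0
  · exact allF9_0 i (by omega) (by omega)
  rcases Nat.lt_or_ge i 6899 with h1 | h1
  · exact allF9_1 i (by omega) (by omega)
  rcases Nat.lt_or_ge i 10108 with h2 | h2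
  · exact allF9_2 i (by omega) (by omega)
  rcases Nat.lt_or_ge i 13173 with h3 | h3
  · exact allF9_3 i (by omega) (by omega)
  rcases Nat.lt_or_ge i 16250 with h4 | h4
  · exact allF9_4 i (by omega) (by omega)
  rcases Nat.lt_or_ge i 19530 with h5 | h5
  · exact allF9_5 i (by omega) (by omega)
  rcases Nat.lt_or_ge i 22783 with h6 | h6
  · exact allF9_6 i (by omega) (by omega)
  rcases Nat.lt_or_ge i 25862 with h7 | h7
  · exact allF9_7 i (by omega) (by omega)
  rcases Nat.lt_or_ge i 28974 with h8 | h8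
  · exact allF9_8 i (by omega) (by omega)
  rcases Nat.lt_or_ge i 32056 with h9 | h9
  · exact allF9_9 i (by omega) (by omega)
  rcases Nat.lt_or_ge i 35083 with h10 | h10
  · exact allF9_10 i (by omega) (by omega)
  rcases Nat.lt_or_ge i 38231 with h11 | h11
  · exact allF9_11 i (by omega) (by omega)
  exact allF9_12 i (by omega) (by omega)

theorem allI1 : ∀ i, i < 1 → QI false 1 F2 A2 2 (ent 1 F1 A1 i) := by
  intro i hi
  exact allI1_0 i (by omega) (by omega)

theorem allI2 : ∀ i, i < 2 → QI false 2 F3 A3 4 (ent 2 F2 A2 i) := by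
  intro i hi
  exact allI2_0 i (by omega) (by omega)

theorem allI3 : ∀ i, i < 4 → QI false 3 F4 A4 11 (ent 3 F3 A3 i) := by
  intro i hi
  exact allI3_0 i (by omega) (by omega)

theorem allI4 : ∀ i, i < 11 → QI false 4 F5 A5 34 (ent 4 F4 A4 i) := by
  intro i hi
  exact allI4_0 i (by omega) (by omega)

theorem allI5 : ∀ i, i < 34 → QI false 5 F6 A6 155 (ent 5 F5 A5 i) := by
  intro i hi
  exact allI5_0 i (by omega) (by omega)

theorem allI6 : ∀ i, i < 155 → QI false 6 F7 A7 1029 (ent 6 F6 A6 i) := by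
  intro i hi
  exact allI6_0 i (by omega) (by omega)

theorem allI7 : ∀ i, i < 1029 → QI false 7 F8 A8 11767 (ent 7 F7 A7 i) := by
  intro i hi
  rcases Nat.lt_or_ge i 954 with h0 | h0
  · exact allI7_0 i (by omega) (by omega)
  exact allI7_1 i (by omega) (by omega)

theorem allI8 : ∀ i, i < 11767 → QI true 8 F9 A9 38869 (ent 8 F8 A8 i) := by
  intro i hi
  rcases Nat.lt_or_ge i 2365 with h0 | h0
  · exact allI8_0 i (by omega) (by omega)
  rcases Nat.lt_or_ge i 3731 with h1 | h1
  · exact allI8_1 i (by omega) (by omega)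
  rcases Nat.lt_or_ge i 4912 with h2 | h2
  · exact allI8_2 i (by omega) (by omega)
  rcases Nat.lt_or_ge i 5913 with h3 | h3
  · exact allI8_3 i (by omega) (by omega)
  rcases Nat.lt_or_ge i 7288 with h4 | h4
  · exact allI8_4 i (by omega) (by omega)
  rcases Nat.lt_or_ge i 8337 with h5 | h5
  · exact allI8_5 i (by omega) (by omega)
  rcases Nat.lt_or_ge i 9399 with h6 | h6
  · exact allI8_6 i (by omega) (by omega)
  rcases Nat.lt_or_ge i 10341 with h7 | h7
  · exact allI8_7 i (by omega) (by omega)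
  rcases Nat.lt_or_ge i 11231 with h8 | h8
  · exact allI8_8 i (by omega) (by omega)
  exact allI8_9 i (by omega) (by omega)

theorem compl1 : Compl false 1 F1 A1 1 := by
  intro H _ _
  refine ⟨0, by norm_num, H, ?_, ⟨SimpleGraph.Iso.refl⟩⟩
  intro x y
  have hx : x = 0 := Subsingleton.elim _ _
  have hy : y = 0 := Subsingleton.elim _ _
  subst hx
  subst hy
  have h : (ent 1 F1 A1 0).testBit 0 = false := by decide +kernel
  constructor
  · intro h'
    exact absurd h' (SimpleGraph.irrefl _)
  · intro h'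
    rw [show 16 * ((0 : Fin 1) : ℕ) + ((0 : Fin 1) : ℕ) = 0 from rfl, h] at h'
    exact absurd h' (by simp)

theorem compl2 : Compl false 2 F2 A2 2 :=
  levelI (by norm_num) full1 compl1 allI1

theorem compl3 : Compl false 3 F3 A3 4 :=
  levelI (by norm_num) full2 compl2 allI2

theorem compl4 : Compl false 4 F4 A4 11 :=
  levelI (by norm_num) full3 compl3 allI3

theorem compl5 : Compl false 5 F5 A5 34 :=
  levelI (by norm_num) full4 compl4 allI4

theorem compl6 : Compl false 6 F6 A6 155 :=
  levelI (by norm_num) full5 compl5 allI5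

theorem compl7 : Compl false 7 F7 A7 1029 :=
  levelI (by norm_num) full6 compl6 allI6

theorem compl8 : Compl false 8 F8 A8 11767 :=
  levelI (by norm_num) full7 compl7 allI7

theorem compl9 : Compl true 9 F9 A9 38869 :=
  levelI (by norm_num) full8 compl8 allI8

theorem order6 : ∀ G : SimpleGraph (Fin 6), IsObstruction 4 G → InS G :=
  levelF (by norm_num) full5 compl5 allF5

theorem order7 : ∀ G : SimpleGraph (Fin 7), IsObstruction 4 G → InS G :=
  levelF (by norm_num) full6 compl6 allF6

theorem order8 : ∀ G : SimpleGraph (Fin 8), IsObstruction 4 G → InS G :=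
  levelF (by norm_num) full7 compl7 allF7

theorem order9 : ∀ G : SimpleGraph (Fin 9), IsObstruction 4 G → InS G :=
  levelF (by norm_num) full8 compl8 allF8

theorem order10 : ∀ G : SimpleGraph (Fin 10), IsObstruction 4 G → InS G :=
  levelF (by norm_num) full9 compl9 allF9

/-- a graph with at most 5 vertices is a partial 4-tree -/
theorem small_partial {n : ℕ} (hn : n ≤ 5) (G : SimpleGraph (Fin n)) : IsPartialKTree 4 G := by
  refine ⟨5, ⊤, Fin.castLE hn, IsKTree.complete, Fin.castLE_injective hn, ?_⟩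
  intro a b hab
  rw [SimpleGraph.top_adj]
  intro h
  exact hab.ne (Fin.castLE_injective hn h)

/-- every member of O_4 of order at most 10 is in the catalogue -/
theorem small_orders {n : ℕ} (hn : n ≤ 10) (G : SimpleGraph (Fin n)) (hG : IsObstruction 4 G) :
    InS G := by
  rcases Nat.lt_or_ge n 6 with h | h
  · exact absurd (small_partial (by omega) G) hG.1
  interval_cases n
  · exact order6 G hG
  · exact order7 G hG
  · exact order8 G hG
  · exact order9 G hG
  · exact order10 G hG

end Pool.Agent.TW4.So
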