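import Pool.Agent.TW4.So.Mem

/-! The machines that read the certificates. -/

namespace Pool.Agent.TW4.So

open Pool.Agent.TW4 Pool.Agent.TW4.Sm

def jF (r : ℕ) : ℕ := Nat.land (Nat.shiftRight r 68) 255

def pF (r : ℕ) : ℕ := Nat.land (Nat.shiftRight r 24) 0xffffffffff

/-- a member is a minor of the graph R (order m): digits 6-15 of r are the vertices, digit 16 the
number of contractions, digits 17, 18 the member, then the contractions -/
def minF (m R r : ℕ) : Bool :=
  and (Nat.ble (Nat.succ (jF r)) mN)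
    (ctr (fun _ R' A => embF (mk (jF r)) (mm (jF r)) (pF r) R' A) (nib r 16) (Nat.shiftRight r 76)
      R (Nat.sub (Nat.shiftLeft 1 m) 1))

/-- the set of the digits 1-5 of r -/
def xS (r : ℕ) : ℕ := setS (Nat.shiftRight r 4)

/-- the masks of V that contain the digits 1-5 of r -/
def xU (V r : ℕ) : ℕ := upS V (Nat.shiftRight r 4)

/-- minor certificate: returns the new V (V if the check fails) -/
def minS (n m R V r : ℕ) : ℕ :=
  cond (Nat.beq (nib r 29) 0)
    (cond (and (Nat.ble (Nat.succ (mk (jF r))) m) (minF m (ext R n (xS r)) r))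
      (Nat.xor V (xU V r)) V)
  (cond (Nat.beq (nib r 29) 1)
    (cond (minF m (ext R n (xS r)) r)
      (Nat.lor (Nat.xor V (xU V r)) (Nat.land V (Nat.shiftLeft 1 (xS r)))) V)
    (cond (and (tb R (Nat.add (Nat.mul 16 (nib r 27)) (nib r 28)))
        (minF m (dR (ext R n (xS r)) (nib r 27) (nib r 28)) r))
      (Nat.xor V (xU V r)) V))

/-- the complement in the vertices of the digits 1-6 of r -/
def yS (n r : ℕ) : ℕ :=
  Nat.xor (Nat.sub (Nat.shiftLeft 1 n) 1)
    (Nat.land (setZ (Nat.shiftRight r 4)) (Nat.sub (Nat.shiftLeft 1 n) 1))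

/-- elimination certificate -/
def ordS (n m R V r : ℕ) : ℕ :=
  cond (elimF (Nat.sub m 5) (ext R n (yS n r)) (Nat.sub (Nat.shiftLeft 1 m) 1)
    (Nat.shiftRight r 28)) (orS V (Nat.shiftRight r 4)) V

/-- isomorphism with a member -/
def isoS (n m R V r : ℕ) : ℕ :=
  cond (and (and (Nat.ble (Nat.succ (Nat.land (Nat.shiftRight r 64) 255)) mN)
      (Nat.beq (mk (Nat.land (Nat.shiftRight r 64) 255)) m))
      (isoF m (ext R n (xS r)) (mm (Nat.land (Nat.shiftRight r 64) 255)) (pF r)))
    (Nat.xor V (Nat.land V (Nat.shiftLeft 1 (xS r)))) V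

/-- the machine of the final level -/
def fin (n m R : ℕ) : ℕ → ℕ → ℕ → (ℕ → Bool) → Bool
  | 0, V, D, k => and (Nat.beq V 0) (k D)
  | f + 1, V, D, k => cond (Nat.beq V 0) (k D)
      (cond (Nat.ble (nib D 0) 5)
        (fin n m R f (con n R V (Nat.land D 0xffffff)) (Nat.shiftRight D 24) k)
      (cond (Nat.beq (nib D 0) 6)
        (fin n m R f (ordS n m R V (Nat.land D 0xffffffffffffffff)) (Nat.shiftRight D 64) k)
      (cond (Nat.beq (nib D 0) 7)
        (fin n m R f (minS n m R V (Nat.land D 0xffffffffffffffffffffffffffffff))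
          (Nat.shiftRight D 120) k)
        (fin n m R f (isoS n m R V (Nat.land D 0xffffffffffffffffff))
          (Nat.shiftRight D 72) k))))

/-- quick test: too many bad vertices outside N -/
def qk (B N : ℕ) : Bool :=
  Nat.ble (Nat.add 2 (pop N))
    (Nat.add (pop (Nat.land B (Nat.xor N 1023))) (cond (Nat.ble (pop N) 2) 1 0))

/-- bad vertices listed in w (20 digits each) -/
def bsF (n R : ℕ) : ℕ → ℕ → ℕ
  | 0, _ => 0
  | s + 1, w => cond (badF n R w)
      (Nat.lor (Nat.shiftLeft 1 (nib w 0)) (bsF n R s (Nat.shiftRight w 20)))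
      (bsF n R s (Nat.shiftRight w 20))

/-- the constraints from the degrees of all vertices -/
def aph (n R : ℕ) : ℕ → ℕ → ℕ
  | 0, V => V
  | w + 1, V => aph n R w (conA n R V w)

def idF (r : ℕ) : ℕ := Nat.land (Nat.shiftRight r 4) 65535

/-- certificate that the graphs with the masks containing X are not partial 4-trees -/
def rejS (n m R V r : ℕ) : ℕ :=
  cond (minF m (ext R n (xS r)) r) (Nat.xor V (xU V r)) V

/-- certificate of an isomorphism with an entry of the next array -/
def isoE (m F' arr' cnt Rx r : ℕ) : Bool :=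
  and (Nat.ble (Nat.succ (idF r)) cnt)
    (isoF m Rx (Nat.land (Nat.shiftRight arr' (Nat.mul (Nat.mul 16 m) (idF r))) F')
      (Nat.shiftRight r 20))

/-- the machine of the intermediate levels -/
def im (n m F' arr' cnt : ℕ) (pr : Bool) (R B : ℕ) : ℕ → ℕ → ℕ → (ℕ → Bool) → Bool
  | 0, V, D, k => and (Nat.beq V 0) (k D)
  | f + 1, V, D, k => cond (Nat.beq V 0) (k D)
      (cond (and pr (qk B (Nat.log2 V)))
        (im n m F' arr' cnt pr R B f (Nat.xor V (Nat.shiftLeft 1 (Nat.log2 V))) D k)
      (cond (Nat.beq (nib D 0) 0)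
        (and (isoE m F' arr' cnt (ext R n (Nat.log2 V)) (Nat.land D 0xfffffffffffffff))
          (im n m F' arr' cnt pr R B f (Nat.xor V (Nat.shiftLeft 1 (Nat.log2 V)))
            (Nat.shiftRight D 60) k))
      (cond (Nat.beq (nib D 0) 7)
        (im n m F' arr' cnt pr R B f
          (rejS n m R V (Nat.land D 0xffffffffffffffffffffffffffffff)) (Nat.shiftRight D 120) k)
        (and pr (dead m (ext R n (Nat.log2 V)) 64 (V0 m) (Nat.shiftRight D 4)
          (fun D' => im n m F' arr' cnt pr R B f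
            (Nat.xor V (Nat.shiftLeft 1 (Nat.log2 V))) D' k))))))

/-- one graph of an intermediate level -/
def stI (n m F F' arr' cnt : ℕ) (pr : Bool) (arr D : ℕ) (k : ℕ → Bool) : Bool :=
  im n m F' arr' cnt pr (Nat.land arr F)
    (bsF n (Nat.land arr F) (nib D 0) (Nat.shiftRight D 4)) 2048
    (aph n (Nat.land arr F) n (le (fullM n) 4))
    (Nat.shiftRight D (Nat.add 4 (Nat.mul 20 (nib D 0)))) k

/-- one graph of the final level -/
def stF (n m F : ℕ) (arr D : ℕ) (k : ℕ → Bool) : Bool :=
  fin n m (Nat.land arr F) 1024 (V0 n) D k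

end Pool.Agent.TW4.So
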