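import Pool.Agent.TW4.So.Mach

/-! Soundness of the machines. -/

namespace Pool.Agent.TW4.So

open Pool.Agent.TW4 Pool.Agent.TW4.Sm

/-! elimination orders -/

theorem sch_step {k R R' A v N : ℕ} (hvA : A.testBit v = true)
    (hNN : ∀ w, N.testBit w = true ↔ R.testBit (16 * v + w) = true ∧ w ≠ v ∧ A.testBit w = true)
    (u1 : ∀ i, R.testBit i = true → R'.testBit i = true)
    (u2 : ∀ w, N.testBit w = true → ∀ w', N.testBit w' = true → R'.testBit (16 * w + w') = true)
    (u3 : {x : ℕ | N.testBit x = true}.encard ≤ k) (h : Sch k R' (A ^^^ 2 ^ v)) : Sch k R A := by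
  have hAA : ∀ w, (A ^^^ 2 ^ v).testBit w = true ↔ w ≠ v ∧ A.testBit w = true := by
    intro w
    rw [tb_clear]
    constructor
    · rintro (h' | ⟨rfl, h'⟩)
      · exact h'
      · rw [hvA] at h'
        exact absurd h' (by simp)
    · exact fun h' => Or.inl h'
  obtain ⟨p, L, c1, c2, c3, c4, c5⟩ := h
  refine ⟨fun w => if w = v then 0 else p w + 1, fun w => if w = v then
    {x | N.testBit x = true} else L w, ?_, ?_, ?_, ?_, ?_⟩
  · intro x y hx hy hxy
    by_cases h1 : x = v
    · by_cases h2 : y = v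
      · rw [h1, h2]
      · simp only [h1, h2, if_true, if_false] at hxy
        omega
    · by_cases h2 : y = v
      · simp only [h1, h2, if_true, if_false] at hxy
        omega
      · simp only [h1, h2, if_false] at hxy
        exact c1 x y ((hAA x).2 ⟨h1, hx⟩) ((hAA y).2 ⟨h2, hy⟩) (by omega)
  · intro x hx w hw
    by_cases h1 : x = v
    · simp only [h1, if_true] at hw ⊢
      have := (hNN w).1 hw
      refine ⟨this.2.2, ?_⟩
      simp only [this.2.1, if_false]
      omega
    · simp only [h1, if_false] at hw ⊢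
      have := c2 x ((hAA x).2 ⟨h1, hx⟩) w hw
      have h2 := (hAA w).1 this.1
      refine ⟨h2.2, ?_⟩
      simp only [h2.1, if_false]
      omega
  · intro x y hx hy hxy hR hlt
    by_cases h1 : x = v
    · simp only [h1, if_true]
      have hyv : y ≠ v := fun h => hxy (h1.trans h.symm)
      exact (hNN y).2 ⟨h1 ▸ hR, hyv, hy⟩
    · by_cases h2 : y = v
      · simp only [h2, if_true] at hlt
        omega
      · simp only [h1, h2, if_false] at hlt ⊢
        exact c3 x y ((hAA x).2 ⟨h1, hx⟩) ((hAA y).2 ⟨h2, hy⟩) hxy (u1 _ hR) (by omega)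
  · intro x hx w hw w' hw' hlt
    by_cases h1 : x = v
    · simp only [h1, if_true] at hw hw'
      have e1 := (hNN w).1 hw
      have e2 := (hNN w').1 hw'
      simp only [e1.2.1, e2.2.1, if_false] at hlt ⊢
      refine c3 w w' ((hAA w).2 e1.2) ((hAA w').2 e2.2) ?_ (u2 w hw w' hw') (by omega)
      rintro rfl
      omega
    · simp only [h1, if_false] at hw hw'
      have hx' := (hAA x).2 ⟨h1, hx⟩
      have e1 := (hAA w).1 (c2 x hx' w hw).1
      have e2 := (hAA w').1 (c2 x hx' w' hw').1
      simp only [e1.1, e2.1, if_false] at hlt ⊢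
      exact c4 x hx' w hw w' hw' (by omega)
  · intro x hx
    by_cases h1 : x = v
    · simp only [h1, if_true]
      exact u3
    · simp only [h1, if_false]
      exact c5 x ((hAA x).2 ⟨h1, hx⟩)

theorem beq0 {M : ℕ} (h : M ≠ 0) : Nat.beq M 0 = false := by
  cases hb : Nat.beq M 0 with
  | true => exact absurd (Nat.eq_of_beq_eq_true hb) h
  | false => rfl

theorem uM_bit {M w : ℕ} (h : M.testBit w = true) :
    (w = M.log2 ∧ M ≠ 0) ∨ (uM M).testBit w = true := by
  have h0 : M ≠ 0 := by
    rintro rfl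
    simp at h
  by_cases hw : w = M.log2
  · exact Or.inl ⟨hw, h0⟩
  · right
    have hb : Nat.beq M 0 = false := beq0 h0
    have : uM M = M ^^^ 2 ^ M.log2 := by
      show cond (Nat.beq M 0) 0 (Nat.xor M (Nat.shiftLeft 1 (Nat.log2 M))) = _
      rw [hb, cond_false, one_shl]
      rfl
    rw [this]
    exact (tb_clear _ _ _).2 (Or.inl ⟨hw, h⟩)

theorem uM_card (M : ℕ) : {x : ℕ | M.testBit x = true}.encard ≤
    {x : ℕ | (uM M).testBit x = true}.encard + 1 := by
  have hsub : {x : ℕ | M.testBit x = true} ⊆ insert M.log2 {x : ℕ | (uM M).testBit x = true} := by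
    intro w hw
    rcases uM_bit hw with h | h
    · exact Set.mem_insert_iff.2 (Or.inl h.1)
    · exact Set.mem_insert_iff.2 (Or.inr h)
  exact (Set.encard_le_encard hsub).trans (Set.encard_insert_le _ _)

theorem uR_mono {M N R i : ℕ} (h : R.testBit i = true) : (uR M N R).testBit i = true := by
  unfold uR
  cases Nat.beq M 0 with
  | true => exact h
  | false =>
    show (R ||| _).testBit i = true
    rw [Nat.testBit_or, h, Bool.true_or]

theorem uR_row {M N R w : ℕ} (hM : M ≠ 0) (hw : N.testBit w = true) :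
    (uR M N R).testBit (16 * M.log2 + w) = true := by
  have hb : Nat.beq M 0 = false := beq0 hM
  unfold uR
  rw [hb, cond_false]
  show (R ||| (N <<< (16 * M.log2))).testBit _ = true
  rw [Nat.testBit_or, Nat.testBit_shiftLeft, Nat.add_sub_cancel_left, hw]
  simp

theorem stE_spec {k : ℕ → Bool} {R N : ℕ} (h : stE k R N = true) :
    ∃ R', k R' = true ∧ (∀ i, R.testBit i = true → R'.testBit i = true) ∧
      (∀ w, N.testBit w = true → ∀ w', N.testBit w' = true → R'.testBit (16 * w + w') = true) ∧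
      {x : ℕ | N.testBit x = true}.encard ≤ 4 := by
  obtain ⟨h1, h2⟩ := Bool.and_eq_true_iff.1 (show and (Nat.beq (uM (uM (uM (uM N)))) 0)
    (k (uR (uM (uM (uM N))) N (uR (uM (uM N)) N (uR (uM N) N (uR N N R))))) = true from h)
  have h0 := Nat.eq_of_beq_eq_true h1
  refine ⟨_, h2, ?_, ?_, ?_⟩
  · intro i hi
    exact uR_mono (uR_mono (uR_mono (uR_mono hi)))
  · intro w hw w' hw'
    rcases uM_bit hw with ⟨e, hne⟩ | hw1
    · rw [e]
      exact uR_mono (uR_mono (uR_mono (uR_row hne hw')))
    rcases uM_bit hw1 with ⟨e, hne⟩ | hw2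
    · rw [e]
      exact uR_mono (uR_mono (uR_row hne hw'))
    rcases uM_bit hw2 with ⟨e, hne⟩ | hw3
    · rw [e]
      exact uR_mono (uR_row hne hw')
    rcases uM_bit hw3 with ⟨e, hne⟩ | hw4
    · rw [e]
      exact uR_row hne hw'
    · rw [h0] at hw4
      simp at hw4
  · have c4 : {x : ℕ | (uM (uM (uM (uM N)))).testBit x = true}.encard = 0 := by
      rw [h0]
      simp
    have c3 := uM_card (uM (uM (uM N)))
    have c2 := uM_card (uM (uM N))
    have c1 := uM_card (uM N)
    have c0 := uM_card N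
    rw [c4] at c3
    refine c0.trans ?_
    have e : (4 : ℕ∞) = ((0 + 1) + 1) + 1 + 1 := by norm_num
    rw [e]
    refine add_le_add (c1.trans (add_le_add (c2.trans (add_le_add c3 le_rfl)) le_rfl)) le_rfl

theorem sch_base {R A : ℕ} (hA : ∀ a, A.testBit a = true → a < 10) (h : pop A ≤ 5) :
    Sch 4 R A := by
  classical
  refine ⟨fun v => v, fun v => {w | A.testBit w = true ∧ v < w}, ?_, ?_, ?_, ?_, ?_⟩
  · intro v w _ _ h
    exact h
  · intro v _ w hw
    exact hw
  · intro v w _ hw _ _ hlt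
    exact ⟨hw, hlt⟩
  · intro v _ w hw w' hw' hlt
    exact ⟨hw'.1, hlt⟩
  · intro v hv
    have h10 : A < 2 ^ 10 := by
      apply Nat.lt_pow_two_of_testBit
      intro i hi
      by_contra hcon
      have := hA i (by simpa using hcon)
      omega
    rw [pop_spec h10] at h
    have h1 : {w : ℕ | A.testBit w = true ∧ v < w} ⊆
        (((Finset.range 10).filter fun i => A.testBit i = true).erase v : Finset ℕ) := by
      rintro w ⟨hw, hlt⟩
      simp only [Finset.coe_erase, Finset.coe_filter, Finset.mem_range, Set.mem_sdiff,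
        Set.mem_ofPred_eq, Set.mem_singleton_iff]
      exact ⟨⟨hA w hw, hw⟩, by omega⟩
    refine (Set.encard_le_encard h1).trans ?_
    rw [Set.encard_coe_eq_coe_finsetCard, Finset.card_erase_of_mem (by
      rw [Finset.mem_filter, Finset.mem_range]
      exact ⟨hA v hv, hv⟩)]
    exact_mod_cast (by omega :
      ((Finset.range 10).filter fun i => A.testBit i = true).card - 1 ≤ 4)

theorem elimF_spec : ∀ (s R A o : ℕ), (∀ a, A.testBit a = true → a < 10) →
    elimF s R A o = true → Sch 4 R A := by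
  intro s
  induction s with
  | zero =>
    intro R A o hA h
    exact sch_base hA (Nat.le_of_ble_eq_true h)
  | succ s ih =>
    intro R A o hA h
    obtain ⟨h1, h2⟩ := Bool.and_eq_true_iff.1 (show and (tb A (nib o 0))
        (stE (fun R' => elimF s R' (Nat.xor A (Nat.shiftLeft 1 (nib o 0))) (Nat.shiftRight o 4)) R
          (Nat.land (Nat.shiftRight R (Nat.mul 16 (nib o 0)))
            (Nat.xor A (Nat.shiftLeft 1 (nib o 0))))) = true from h)
    rw [tb_eq] at h1
    obtain ⟨R', h3, u1, u2, u3⟩ := stE_spec h2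
    have hx : Nat.xor A (Nat.shiftLeft 1 (nib o 0)) = A ^^^ 2 ^ (nib o 0) := by
      rw [one_shl]
      rfl
    have h4 := ih _ _ _ (by
      intro a ha
      exact hA a ((xor_bit _ _ _ h1).1 ha).2) h3
    rw [hx] at h4
    refine sch_step h1 (N := Nat.land (Nat.shiftRight R (Nat.mul 16 (nib o 0)))
      (Nat.xor A (Nat.shiftLeft 1 (nib o 0)))) ?_ u1 u2 (by exact_mod_cast u3) h4
    intro w
    show ((R >>> (16 * nib o 0)) &&& (Nat.xor A (Nat.shiftLeft 1 (nib o 0)))).testBit w = true ↔ _
    rw [Nat.testBit_and, Bool.and_eq_true, Nat.testBit_shiftRight, xor_bit _ _ _ h1]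

/-! minors -/

theorem mem_obs {j : ℕ} (hj : j < mN) : IsObstruction 4 (gr (mk j) (mc j)) :=
  (pairs.1 _ (mem_cat ⟨j, hj⟩)).2

theorem minF_spec {m R r : ℕ} (hm : m ≤ 10) {G : SimpleGraph (Fin m)}
    (hG : ∀ x y : Fin m, R.testBit (16 * x + y) = true → G.Adj x y) (h : minF m R r = true) :
    jF r < mN ∧ IsMinor (gr (mk (jF r)) (mc (jF r))) G := by
  obtain ⟨h1, h2⟩ := Bool.and_eq_true_iff.1 (show and (Nat.ble (Nat.succ (jF r)) mN)
    (ctr (fun _ R' A => embF (mk (jF r)) (mm (jF r)) (pF r) R' A) (nib r 16) (Nat.shiftRight r 76)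
      R (Nat.sub (Nat.shiftLeft 1 m) 1)) = true from h)
  have hj : jF r < mN := Nat.le_of_ble_eq_true h1
  have e : Nat.sub (Nat.shiftLeft 1 m) 1 = 2 ^ m - 1 := by
    rw [one_shl]
    rfl
  rw [e] at h2
  obtain ⟨w', R', A', hS, h3⟩ := ctr_spec _ _ _ _ _ (stage_init' hm hG) h2
  have hk := mem_k ⟨jF r, hj⟩
  exact ⟨hj, embF_spec hk.2 hk.1 (mm_rng hj) (mm_mat hj) hS h3⟩

theorem ext_mono {n R X N : ℕ} (hn : n < 10) (hR : Rng n R) (hN : N < 2 ^ n)
    (hX : ∀ a, X.testBit a = true → N.testBit a = true) (x y : Fin (n + 1))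
    (h : (ext R n X).testBit (16 * x + y) = true) : (ext R n N).testBit (16 * x + y) = true := by
  have hX' : X < 2 ^ n := by
    apply Nat.lt_pow_two_of_testBit
    intro i hi
    by_contra hcon
    have := bit_lt hN (hX i (by simpa using hcon))
    omega
  have hx := Nat.lt_succ_iff.1 x.2
  have hy := Nat.lt_succ_iff.1 y.2
  rw [ext_bit hn hR hX' _ _ hx hy] at h
  rw [ext_bit hn hR hN _ _ hx hy]
  rcases h with h | h | h
  · exact Or.inl h
  · exact Or.inr (Or.inl ⟨h.1, h.2.1, hX _ h.2.2⟩)
  · exact Or.inr (Or.inr ⟨h.1, h.2.1, hX _ h.2.2⟩)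

theorem setS_bit {x a : ℕ} : (setS x).testBit a = true ↔ ∃ i, i < 5 ∧ nib x i = a := by
  have h : setS x = (((2 ^ nib x 0 ||| 2 ^ nib x 1) ||| 2 ^ nib x 2) ||| 2 ^ nib x 3) |||
      2 ^ nib x 4 := by
    rw [← one_shl, ← one_shl, ← one_shl, ← one_shl, ← one_shl]
    rfl
  rw [h]
  simp only [Nat.testBit_or, Bool.or_eq_true, Nat.testBit_two_pow, decide_eq_true_eq]
  constructor
  · rintro ((((h | h) | h) | h) | h)
    · exact ⟨0, by norm_num, h⟩
    · exact ⟨1, by norm_num, h⟩
    · exact ⟨2, by norm_num, h⟩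
    · exact ⟨3, by norm_num, h⟩
    · exact ⟨4, by norm_num, h⟩
  · rintro ⟨i, hi, h⟩
    interval_cases i
    · exact Or.inl (Or.inl (Or.inl (Or.inl h)))
    · exact Or.inl (Or.inl (Or.inl (Or.inr h)))
    · exact Or.inl (Or.inl (Or.inr h))
    · exact Or.inl (Or.inr h)
    · exact Or.inr h

theorem upS_bit {V x N : ℕ} (hN : N < 1024) : (upS V x).testBit N = true ↔
    V.testBit N = true ∧ ∀ a, (setS x).testBit a = true → N.testBit a = true := by
  unfold upS
  rw [cw_bit hN, cw_bit hN, cw_bit hN, cw_bit hN, cw_bit hN]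
  constructor
  · rintro ⟨⟨⟨⟨⟨h, h0⟩, h1⟩, h2⟩, h3⟩, h4⟩
    refine ⟨h, ?_⟩
    intro a ha
    obtain ⟨i, hi, rfl⟩ := setS_bit.1 ha
    interval_cases i <;> assumption
  · rintro ⟨h, ha⟩
    exact ⟨⟨⟨⟨⟨h, ha _ (setS_bit.2 ⟨0, by norm_num, rfl⟩)⟩,
      ha _ (setS_bit.2 ⟨1, by norm_num, rfl⟩)⟩, ha _ (setS_bit.2 ⟨2, by norm_num, rfl⟩)⟩,
      ha _ (setS_bit.2 ⟨3, by norm_num, rfl⟩)⟩, ha _ (setS_bit.2 ⟨4, by norm_num, rfl⟩)⟩

theorem orS_bit {V z N : ℕ} (hN : N < 1024) (hV : V.testBit N = true)
    (h : ∃ i, i < 6 ∧ N.testBit (nib z i) = true) : (orS V z).testBit N = true := by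
  have hw : ∀ w, N.testBit w = true → (CT >>> (1024 * w)).testBit N = true := by
    intro w hw
    have := ((cw_bit (V := V) (w := w) hN).2 ⟨hV, hw⟩)
    have h2 : (V &&& (CT >>> (1024 * w))).testBit N = true := this
    rw [Nat.testBit_and, Bool.and_eq_true] at h2
    exact h2.2
  have e : orS V z = V &&& ((((((CT >>> (1024 * nib z 0)) ||| (CT >>> (1024 * nib z 1))) |||
    (CT >>> (1024 * nib z 2))) ||| (CT >>> (1024 * nib z 3))) |||
    (CT >>> (1024 * nib z 4))) ||| (CT >>> (1024 * nib z 5))) := rfl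
  rw [e]
  simp only [Nat.testBit_and, Nat.testBit_or, Bool.and_eq_true, Bool.or_eq_true]
  refine ⟨hV, ?_⟩
  obtain ⟨i, hi, h⟩ := h
  have h' := hw _ h
  interval_cases i
  · exact Or.inl (Or.inl (Or.inl (Or.inl (Or.inl h'))))
  · exact Or.inl (Or.inl (Or.inl (Or.inl (Or.inr h'))))
  · exact Or.inl (Or.inl (Or.inl (Or.inr h')))
  · exact Or.inl (Or.inl (Or.inr h'))
  · exact Or.inl (Or.inr h')
  · exact Or.inr h'

theorem setZ_bit {z a : ℕ} (h : (setZ z).testBit a = true) : ∃ i, i < 6 ∧ nib z i = a := by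
  have e : setZ z = (setS z) ||| 2 ^ nib z 5 := by
    rw [← one_shl]
    rfl
  rw [e, Nat.testBit_or, Bool.or_eq_true, setS_bit, Nat.testBit_two_pow,
    decide_eq_true_eq] at h
  rcases h with ⟨i, hi, h⟩ | h
  · exact ⟨i, by omega, h⟩
  · exact ⟨5, by norm_num, h⟩

/-- G is one of the 49 graphs -/
def InS {n : ℕ} (G : SimpleGraph (Fin n)) : Prop :=
  ∃ p ∈ small, Nonempty (G ≃g gr p.1 p.2)

theorem inS_iso {n : ℕ} {G H : SimpleGraph (Fin n)} (e : G ≃g H) (h : InS H) : InS G := by
  obtain ⟨p, hp, ⟨e'⟩⟩ := h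
  exact ⟨p, hp, ⟨e.trans e'⟩⟩

theorem min_no {m R r : ℕ} (hm : m ≤ 10) {G : SimpleGraph (Fin m)}
    (hG : ∀ x y : Fin m, R.testBit (16 * x + y) = true → G.Adj x y) (h : minF m R r = true) :
    ¬ IsPartialKTree 4 G := by
  intro hp
  obtain ⟨hj, h2⟩ := minF_spec hm hG h
  exact (mem_obs hj).1 (partial_minor hp h2)

theorem xU_bit {V r N : ℕ} (hN : N < 1024) : (xU V r).testBit N = true ↔
    V.testBit N = true ∧ ∀ a, (xS r).testBit a = true → N.testBit a = true := upS_bit hN

/-- masks removed by a minor certificate -/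
theorem minS_spec {n R V r N : ℕ} (hn : n < 10) (hR : Rng n R) (hN : N < 2 ^ n)
    {G : SimpleGraph (Fin (n + 1))} {H : SimpleGraph (Fin n)} (hG : Mat (n + 1) (ext R n N) G)
    (hH : Mat n R H) (ho : IsObstruction 4 G) (hV : V.testBit N = true) :
    (minS n (n + 1) R V r).testBit N = true := by
  have hN' := lt1024 hn.le hN
  have key : ∀ X, (∀ a, X.testBit a = true → N.testBit a = true) →
      ∀ x y : Fin (n + 1), (ext R n X).testBit (16 * x + y) = true → G.Adj x y := by
    intro X hX x y h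
    exact (hG x y).2 (ext_mono hn hR hN hX x y h)
  unfold minS
  cases h0 : Nat.beq (nib r 29) 0 with
  | true =>
    rw [cond_true]
    cases hc : and (Nat.ble (Nat.succ (mk (jF r))) (n + 1)) (minF (n + 1) (ext R n (xS r)) r) with
    | false => exact hV
    | true =>
      rw [cond_true]
      refine xor_sub_bit hV ?_
      rw [xU_bit hN']
      rintro ⟨_, hX⟩
      obtain ⟨h1, h2⟩ := Bool.and_eq_true_iff.1 hc
      have h3 : mk (jF r) < n + 1 := Nat.le_of_ble_eq_true h1
      obtain ⟨hj, h4⟩ := minF_spec (by omega) (key _ hX) h2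
      exact (mem_obs hj).1 (ho.2 _ _ h4 (iso_card_ne (by omega)))
  | false =>
  rw [cond_false]
  cases h1 : Nat.beq (nib r 29) 1 with
  | true =>
    rw [cond_true]
    cases hc : minF (n + 1) (ext R n (xS r)) r with
    | false => exact hV
    | true =>
      rw [cond_true]
      show ((Nat.xor V (xU V r)) ||| (V &&& (Nat.shiftLeft 1 (xS r)))).testBit N = true
      rw [Nat.testBit_or, Bool.or_eq_true]
      by_cases hne : N = xS r
      · right
        rw [one_shl, Nat.testBit_and, hV, Nat.testBit_two_pow]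
        simp [hne]
      · left
        refine xor_sub_bit hV ?_
        rw [xU_bit hN']
        rintro ⟨_, hX⟩
        -- an element outside X
        have hex : ∃ z, N.testBit z = true ∧ ¬ (xS r).testBit z = true := by
          by_contra hcon
          push Not at hcon
          refine hne (Nat.eq_of_testBit_eq ?_)
          intro i
          by_cases hi : N.testBit i = true
          · rw [hi, hcon i hi]
          · have h2 : ¬ (xS r).testBit i = true := fun h => hi (hX i h)
            rw [Bool.not_eq_true] at hi h2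
            rw [hi, h2]
        obtain ⟨z, hz, hzX⟩ := hex
        have hzn := bit_lt hN hz
        have hX' : xS r < 2 ^ n := by
          apply Nat.lt_pow_two_of_testBit
          intro i hi
          by_contra hcon
          have := bit_lt hN (hX i (by simpa using hcon))
          omega
        have hA : G.Adj (Fin.castSucc ⟨z, hzn⟩) (Fin.last n) := (adj_cl hn hR hN hG _).2 hz
        have hsub : ∀ x y : Fin (n + 1), (ext R n (xS r)).testBit (16 * x + y) = true →
            (del G (Fin.castSucc ⟨z, hzn⟩) (Fin.last n)).Adj x y := by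
          intro x y h
          refine ⟨key _ hX x y h, ?_, ?_⟩
          · rintro ⟨rfl, rfl⟩
            rw [ext_bit hn hR hX' _ _ (Nat.lt_succ_iff.1 (Fin.castSucc (⟨z, hzn⟩ : Fin n)).2)
              (Nat.lt_succ_iff.1 (Fin.last n).2)] at h
            simp only [Fin.val_castSucc, Fin.val_last] at h
            rcases h with h | h | h
            · omega
            · omega
            · exact hzX h.2.2
          · rintro ⟨rfl, rfl⟩
            rw [ext_bit hn hR hX' _ _ (Nat.lt_succ_iff.1 (Fin.last n).2)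
              (Nat.lt_succ_iff.1 (Fin.castSucc (⟨z, hzn⟩ : Fin n)).2)] at h
            simp only [Fin.val_castSucc, Fin.val_last] at h
            rcases h with h | h | h
            · omega
            · exact hzX h.2.2
            · omega
        exact min_no (by omega) hsub hc (ho.2 _ _ (minor_del G _ _) (del_not_iso hA))
  | false =>
  rw [cond_false]
  cases hc : and (tb R (Nat.add (Nat.mul 16 (nib r 27)) (nib r 28)))
        (minF (n + 1) (dR (ext R n (xS r)) (nib r 27) (nib r 28)) r) with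
  | false => exact hV
  | true =>
    rw [cond_true]
    refine xor_sub_bit hV ?_
    rw [xU_bit hN']
    rintro ⟨_, hX⟩
    obtain ⟨h2, h3⟩ := Bool.and_eq_true_iff.1 hc
    rw [tb_eq] at h2
    have h2' : R.testBit (16 * nib r 27 + nib r 28) = true := h2
    have hu16 := nib_lt r 27
    have hv16 := nib_lt r 28
    have h4 := hR _ h2'
    have hu : nib r 27 < n := by omega
    have hv : nib r 28 < n := by omega
    have hHA : H.Adj ⟨_, hu⟩ ⟨_, hv⟩ := (hH _ _).2 h2'
    have hR2 : R.testBit (16 * nib r 28 + nib r 27) = true := (hH _ _).1 hHA.symm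
    have hne : nib r 27 ≠ nib r 28 := fun h => hHA.ne (Fin.ext h)
    have hA : G.Adj (Fin.castSucc ⟨_, hu⟩) (Fin.castSucc ⟨_, hv⟩) :=
      (adj_cc hn hR hN hG hH _ _).2 hHA
    have hX' : xS r < 2 ^ n := by
      apply Nat.lt_pow_two_of_testBit
      intro i hi
      by_contra hcon
      have := bit_lt hN (hX i (by simpa using hcon))
      omega
    have b1 : (ext R n (xS r)).testBit (16 * nib r 27 + nib r 28) = true :=
      (ext_bit hn hR hX' _ _ hu.le hv.le).2 (Or.inl ⟨hu, hv, h2'⟩)
    have b2 : (ext R n (xS r)).testBit (16 * nib r 28 + nib r 27) = true :=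
      (ext_bit hn hR hX' _ _ hv.le hu.le).2 (Or.inl ⟨hv, hu, hR2⟩)
    have e : dR (ext R n (xS r)) (nib r 27) (nib r 28) =
        ((ext R n (xS r)) ^^^ 2 ^ (16 * nib r 27 + nib r 28)) ^^^
          2 ^ (16 * nib r 28 + nib r 27) := by
      show ((ext R n (xS r)) ^^^ (Nat.shiftLeft 1 (16 * nib r 27 + nib r 28))) ^^^
        (Nat.shiftLeft 1 (16 * nib r 28 + nib r 27)) = _
      rw [one_shl, one_shl]
    have hsub : ∀ x y : Fin (n + 1),
        (dR (ext R n (xS r)) (nib r 27) (nib r 28)).testBit (16 * x + y) = true →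
        (del G (Fin.castSucc ⟨_, hu⟩) (Fin.castSucc ⟨_, hv⟩)).Adj x y := by
      intro x y h
      have hx := x.2
      have hy := y.2
      rw [e, tb_clear, tb_clear] at h
      have h5 : (16 * (x : ℕ) + y ≠ 16 * nib r 28 + nib r 27) ∧
          (16 * (x : ℕ) + y ≠ 16 * nib r 27 + nib r 28) ∧
          (ext R n (xS r)).testBit (16 * x + y) = true := by
        rcases h with ⟨h6, h7⟩ | ⟨h6, h7⟩
        · rcases h7 with ⟨h8, h9⟩ | ⟨h8, h9⟩
          · exact ⟨h6, h8, h9⟩
          · rw [h8, b1] at h9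
            exact absurd h9 (by simp)
        · exfalso
          have h8 : ((ext R n (xS r)) ^^^ 2 ^ (16 * nib r 27 + nib r 28)).testBit
              (16 * nib r 28 + nib r 27) = true := by
            refine (tb_clear _ _ _).2 (Or.inl ⟨?_, b2⟩)
            omega
          rw [h6, h8] at h7
          exact absurd h7 (by simp)
      refine ⟨key _ hX x y h5.2.2, ?_, ?_⟩
      · rintro ⟨rfl, rfl⟩
        exact h5.2.1 rfl
      · rintro ⟨rfl, rfl⟩
        exact h5.1 rfl
    exact min_no (by omega) hsub h3 (ho.2 _ _ (minor_del G _ _) (del_not_iso hA))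

theorem ordS_spec {n R V r N : ℕ} (hn : n < 10) (hR : Rng n R) (hN : N < 2 ^ n)
    {G : SimpleGraph (Fin (n + 1))} (hG : Mat (n + 1) (ext R n N) G)
    (ho : ¬ IsPartialKTree 4 G) (hV : V.testBit N = true) :
    (ordS n (n + 1) R V r).testBit N = true := by
  have hN' := lt1024 hn.le hN
  unfold ordS
  cases hc : elimF (Nat.sub (n + 1) 5) (ext R n (yS n r))
      (Nat.sub (Nat.shiftLeft 1 (n + 1)) 1) (Nat.shiftRight r 28) with
  | false => exact hV
  | true =>
    rw [cond_true]
    by_contra hcon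
    have hno : ∀ i, i < 6 → ¬ N.testBit (nib (Nat.shiftRight r 4) i) = true := by
      intro i hi h
      exact hcon (orS_bit hN' hV ⟨i, hi, h⟩)
    have e1 : Nat.sub (Nat.shiftLeft 1 n) 1 = 2 ^ n - 1 := by
      rw [one_shl]
      rfl
    have e2 : Nat.sub (Nat.shiftLeft 1 (n + 1)) 1 = 2 ^ (n + 1) - 1 := by
      rw [one_shl]
      rfl
    have hY : ∀ a, N.testBit a = true → (yS n r).testBit a = true := by
      intro a ha
      have han := bit_lt hN ha
      have hz : (setZ (Nat.shiftRight r 4)).testBit a = false := by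
        by_contra h
        obtain ⟨i, hi, rfl⟩ := setZ_bit (by simpa using h)
        exact hno i hi ha
      have e3 : yS n r = (Nat.sub (Nat.shiftLeft 1 n) 1) ^^^
        ((setZ (Nat.shiftRight r 4)) &&& (Nat.sub (Nat.shiftLeft 1 n) 1)) := rfl
      rw [e3, e1, Nat.testBit_xor, Nat.testBit_and, hz, Nat.testBit_two_pow_sub_one]
      simpa using han
    have hY' : yS n r < 2 ^ n := by
      apply Nat.lt_pow_two_of_testBit
      intro i hi
      have e3 : yS n r = (Nat.sub (Nat.shiftLeft 1 n) 1) ^^^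
        ((setZ (Nat.shiftRight r 4)) &&& (Nat.sub (Nat.shiftLeft 1 n) 1)) := rfl
      rw [e3, e1, Nat.testBit_xor, Nat.testBit_and, Nat.testBit_two_pow_sub_one]
      have : decide (i < n) = false := by simpa using hi
      rw [this]
      simp
    have hall : ∀ a, (2 ^ (n + 1) - 1).testBit a = true ↔ a < n + 1 := by
      intro a
      rw [Nat.testBit_two_pow_sub_one]
      simp
    rw [e2] at hc
    have hs := elimF_spec _ _ _ _ (by
      intro a ha
      have := (hall a).1 ha
      omega) hc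
    refine ho (partial_of_sch hs ?_)
    intro x y hxy
    exact ⟨(hall _).2 x.2, (hall _).2 y.2, ext_mono hn hR hY' hY x y ((hG x y).1 hxy)⟩

theorem rng_ext' {n R N : ℕ} (hn : n < 10) (hR : Rng n R) (hN : N < 2 ^ n) :
    Rng (n + 1) (ext R n N) := by
  intro j hj
  rw [ext_def, Nat.testBit_or, Nat.testBit_or, Bool.or_eq_true, Bool.or_eq_true] at hj
  rcases hj with (h | h) | h
  · have := hR j h
    omega
  · rw [Nat.testBit_shiftLeft, Bool.and_eq_true] at h
    have h1 : j ≥ 16 * n := by simpa using h.1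
    have h2 := bit_lt hN h.2
    omega
  · rw [Nat.testBit_shiftLeft, Bool.and_eq_true] at h
    have h1 : j ≥ n := by simpa using h.1
    have h2 := spread_bit' h.2
    have hN' : N < 1024 := lt_of_lt_of_le hN (Nat.pow_le_pow_right (by norm_num) hn.le)
    have h3 : j - n = 16 * ((j - n) / 16) := by omega
    have h4 := h.2
    rw [h3, spread_bit hN' (by omega)] at h4
    have h5 := bit_lt hN h4
    omega

theorem isoS_spec {n R V r N : ℕ} (hn : n < 10) (hR : Rng n R) (hN : N < 2 ^ n)
    {G : SimpleGraph (Fin (n + 1))} (hG : Mat (n + 1) (ext R n N) G) (hV : V.testBit N = true) :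
    (isoS n (n + 1) R V r).testBit N = true ∨ InS G := by
  unfold isoS
  cases hc : and (and (Nat.ble (Nat.succ (Nat.land (Nat.shiftRight r 64) 255)) mN)
      (Nat.beq (mk (Nat.land (Nat.shiftRight r 64) 255)) (n + 1)))
      (isoF (n + 1) (ext R n (xS r)) (mm (Nat.land (Nat.shiftRight r 64) 255)) (pF r)) with
  | false => exact Or.inl hV
  | true =>
    rw [cond_true]
    by_cases hne : N = xS r
    · right
      obtain ⟨h1, h2⟩ := Bool.and_eq_true_iff.1 hc
      obtain ⟨h3, h4⟩ := Bool.and_eq_true_iff.1 h1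
      have hj : Nat.land (Nat.shiftRight r 64) 255 < mN := Nat.le_of_ble_eq_true h3
      have hk := Nat.eq_of_beq_eq_true h4
      rw [← hne] at h2
      obtain ⟨G', hG', ⟨e⟩⟩ := isoF_spec (by omega) (by omega) (rng_ext' hn hR hN) hG h2
      have hmat := mm_mat hj
      have hcat := mem_cat ⟨_, hj⟩
      rw [show mk ((⟨Nat.land (Nat.shiftRight r 64) 255, hj⟩ : Fin 49) : ℕ) = n + 1 from hk]
        at hcat
      rw [hk] at hmat
      have : G' = gr (n + 1) (mc (Nat.land (Nat.shiftRight r 64) 255)) := hG'.unique hmat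
      subst this
      exact ⟨_, hcat, ⟨e⟩⟩
    · left
      refine xor_sub_bit hV ?_
      show ¬ (V &&& (Nat.shiftLeft 1 (xS r))).testBit N = true
      rw [one_shl, Nat.testBit_and, Nat.testBit_two_pow, Bool.and_eq_true]
      rintro ⟨_, h⟩
      exact hne (by simpa using Eq.symm (of_decide_eq_true h))

end Pool.Agent.TW4.So
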