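import Pool.Agent.TW4.So.Defs

/-! Soundness of the flat permutation checks. -/

namespace Pool.Agent.TW4.So

open Pool.Agent.TW4 Pool.Agent.TW4.Sm

theorem colU_eq (R p : ℕ) : colU R p = colP R p 10 := rfl

theorem rowU_eq (C p : ℕ) : rowU C p = rowP C p 10 := rfl

theorem imgU_eq (p : ℕ) : imgU p = imgP p 10 := rfl

theorem perm_bit' {k R p : ℕ} (hk : k ≤ 10) (hR : Rng k R) (hinj : ∀ i j, i < k → j < k →
    nib p i = nib p j → i = j) {i j : ℕ} (hi : i < k) (hj : j < k) :
    (rowU (colU R p) p).testBit (16 * nib p i + nib p j) = true ↔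
      R.testBit (16 * i + j) = true := by
  rw [rowU_eq, colU_eq, rowP_bit _ _ _ _ _ (nib_lt p j)]
  constructor
  · rintro ⟨i', hi', h1, h2⟩
    rw [colP_bit _ _ _ _ _ (nib_lt p j)] at h2
    obtain ⟨_, j', hj', h3, h4⟩ := h2
    have h5 := hR _ h4
    have h6 : i' < k := by omega
    have h7 : j' < k := by omega
    rw [hinj i' i h6 hi h1, hinj j' j h7 hj h3] at h4
    exact h4
  · intro h
    refine ⟨i, by omega, rfl, ?_⟩
    rw [colP_bit _ _ _ _ _ (nib_lt p j)]
    exact ⟨by omega, j, by omega, rfl, h⟩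

theorem nib_shift (p k i : ℕ) : nib (Nat.shiftRight p (Nat.mul 4 k)) i = nib p (k + i) := by
  show ((p >>> (4 * k)) >>> (4 * i)) &&& 15 = (p >>> (4 * (k + i))) &&& 15
  rw [← Nat.shiftRight_add]
  congr 2
  ring

theorem dup_spec {k p : ℕ} (hk : k ≤ 10) (h : dup k p = true) :
    ∀ i, k ≤ i → i < 10 → nib p i = nib p 0 := by
  intro i h1 h2
  have h3 : Nat.shiftRight p (Nat.mul 4 k) =
      Nat.mul (nib p 0) (Nat.shiftRight 0x1111111111 (Nat.mul 4 k)) :=
    Nat.eq_of_beq_eq_true h
  have h4 : ∀ c : Fin 16, ∀ k : Fin 11, ∀ i : Fin 10, (k : ℕ) ≤ i →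
      nib (Nat.mul c (Nat.shiftRight 0x1111111111 (Nat.mul 4 k))) (i - k) = c := by
    decide +kernel
  have h5 := h4 ⟨nib p 0, nib_lt _ _⟩ ⟨k, by omega⟩ ⟨i, h2⟩ h1
  simp only at h5
  rw [← h3, nib_shift, show k + (i - k) = i by omega] at h5
  exact h5

theorem img_bit {k p a : ℕ} (hk : k ≤ 10) (h1 : 1 ≤ k) (hd : dup k p = true) :
    (imgU p).testBit a = true ↔ ∃ i, i < k ∧ nib p i = a := by
  rw [imgU_eq, imgP_bit]
  constructor
  · rintro ⟨i, hi, h⟩
    rcases Nat.lt_or_ge i k with h2 | h2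
    · exact ⟨i, h2, h⟩
    · rw [dup_spec hk hd i h2 hi] at h
      exact ⟨0, by omega, h⟩
  · rintro ⟨i, hi, h⟩
    exact ⟨i, by omega, h⟩

theorem isoF_spec {m R S p : ℕ} (hm : m ≤ 10) (h1 : 1 ≤ m) (hR : Rng m R)
    {G : SimpleGraph (Fin m)} (hG : Mat m R G) (h : isoF m R S p = true) : Rep m S G := by
  obtain ⟨h2, h3⟩ := Bool.and_eq_true_iff.1 (show and (Nat.beq (rowU (colU R p) p) S)
    (and (Nat.beq (imgU p) (Nat.sub (Nat.shiftLeft 1 m) 1)) (dup m p)) = true from h)
  obtain ⟨h4, h5⟩ := Bool.and_eq_true_iff.1 h3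
  have e1 := Nat.eq_of_beq_eq_true h2
  have e2 := Nat.eq_of_beq_eq_true h4
  rw [one_shl] at e2
  have e3 : imgU p = 2 ^ m - 1 := e2
  have hlt : ∀ i, i < m → nib p i < m := by
    intro i hi
    have : (imgU p).testBit (nib p i) = true := (img_bit hm h1 h5).2 ⟨i, hi, rfl⟩
    rw [e3, Nat.testBit_two_pow_sub_one] at this
    simpa using this
  have hsurj : ∀ a, a < m → ∃ i, i < m ∧ nib p i = a := by
    intro a ha
    have : (imgU p).testBit a = true := by
      rw [e3, Nat.testBit_two_pow_sub_one]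
      simpa using ha
    exact (img_bit hm h1 h5).1 this
  let f : Fin m → Fin m := fun i => ⟨nib p i, hlt i i.2⟩
  have hfs : Function.Surjective f := by
    intro a
    obtain ⟨i, hi, h3⟩ := hsurj a a.2
    exact ⟨⟨i, hi⟩, Fin.ext h3⟩
  have hfb : Function.Bijective f := Finite.surjective_iff_bijective.1 hfs
  have hinj : ∀ i j, i < m → j < m → nib p i = nib p j → i = j := by
    intro i j hi hj hij
    have := hfb.1 (a₁ := ⟨i, hi⟩) (a₂ := ⟨j, hj⟩) (Fin.ext hij)
    simpa using this
  let e : Fin m ≃ Fin m := Equiv.ofBijective f hfb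
  refine ⟨G.comap e.symm, ?_, ⟨⟨e, ?_⟩⟩⟩
  · intro x y
    rw [SimpleGraph.comap_adj, hG]
    have hx : nib p (e.symm x) = x := by
      have : (e (e.symm x) : ℕ) = x := by rw [e.apply_symm_apply]
      exact this
    have hy : nib p (e.symm y) = y := by
      have : (e (e.symm y) : ℕ) = y := by rw [e.apply_symm_apply]
      exact this
    rw [← perm_bit' hm hR hinj (e.symm x).2 (e.symm y).2, hx, hy, e1]
  · intro a b
    rw [SimpleGraph.comap_adj, e.symm_apply_apply, e.symm_apply_apply]

theorem pop_inj' {k p : ℕ} (hk : k ≤ 10) (h1 : 1 ≤ k) (hd : dup k p = true)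
    (h10 : imgU p < 1024) (h : pop (imgU p) = k) :
    ∀ i j, i < k → j < k → nib p i = nib p j → i = j := by
  classical
  rw [pop_spec h10] at h
  have himg : ((Finset.range 10).filter fun i => (imgU p).testBit i = true) =
      (Finset.range k).image (nib p) := by
    ext a
    rw [Finset.mem_filter, Finset.mem_image, img_bit hk h1 hd]
    constructor
    · rintro ⟨_, i, hi, hia⟩
      exact ⟨i, Finset.mem_range.2 hi, hia⟩
    · rintro ⟨i, hi, hia⟩
      refine ⟨?_, i, Finset.mem_range.1 hi, hia⟩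
      by_contra hcon
      rw [Finset.mem_range, not_lt] at hcon
      have : (imgU p).testBit a = true := (img_bit hk h1 hd).2 ⟨i, Finset.mem_range.1 hi, hia⟩
      rw [Nat.testBit_lt_two_pow (lt_of_lt_of_le h10
        (show 2 ^ 10 ≤ 2 ^ a from Nat.pow_le_pow_right (by norm_num) hcon))] at this
      exact absurd this (by simp)
  rw [himg] at h
  have hinj : Set.InjOn (nib p) (Finset.range k : Set ℕ) := by
    apply Finset.card_image_iff.1
    rw [h, Finset.card_range]
  intro i j hi hj hij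
  exact hinj (by simpa using hi) (by simpa using hj) hij

theorem embF_spec {m k M p R A : ℕ} {G : SimpleGraph (Fin m)} {H : SimpleGraph (Fin k)}
    (hk : k ≤ 10) (hk1 : 1 ≤ k) (hM : Rng k M) (hH : Mat k M H) (hS : Stage G R A)
    (h : embF k M p R A = true) : IsMinor H G := by
  classical
  obtain ⟨g, hg1, hg2⟩ := hS
  obtain ⟨h1, h2⟩ := Bool.and_eq_true_iff.1 (show and
    (Nat.beq (Nat.land (rowU (colU M p) p) R) (rowU (colU M p) p))
    (and (Nat.beq (Nat.land (imgU p) A) (imgU p)) (and (Nat.beq (pop (imgU p)) k) (dup k p)))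
      = true from h)
  obtain ⟨h3, h4⟩ := Bool.and_eq_true_iff.1 h2
  obtain ⟨h5, hd⟩ := Bool.and_eq_true_iff.1 h4
  have e1 := Nat.eq_of_beq_eq_true h1
  have e2 := Nat.eq_of_beq_eq_true h3
  have e3 := Nat.eq_of_beq_eq_true h5
  have hA' : ∀ a, (imgU p).testBit a = true → A.testBit a = true := by
    intro a this
    rw [← e2] at this
    have h' : ((imgU p) &&& A).testBit a = true := this
    rw [Nat.testBit_and, Bool.and_eq_true] at h'
    exact h'.2
  have hA : ∀ i, i < k → A.testBit (nib p i) = true := fun i hi =>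
    hA' _ ((img_bit hk hk1 hd).2 ⟨i, hi, rfl⟩)
  have h10 : imgU p < 2 ^ 10 := by
    apply Nat.lt_pow_two_of_testBit
    intro i hi
    by_contra hcon
    have h' : (imgU p).testBit i = true := by simpa using hcon
    have := (hg1 i (hA' i h')).1
    omega
  have hinj := pop_inj' hk hk1 hd h10 e3
  have hR : ∀ i j, i < k → j < k → M.testBit (16 * i + j) = true →
      R.testBit (16 * nib p i + nib p j) = true := by
    intro i j hi hj hij
    have h6 := (perm_bit' hk hM hinj hi hj).2 hij
    rw [← e1] at h6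
    have h' : ((rowU (colU M p) p) &&& R).testBit (16 * nib p i + nib p j) = true := h6
    rw [Nat.testBit_and, Bool.and_eq_true] at h'
    exact h'.2
  let f : Fin m → Option (Fin k) := fun x =>
    if h : ∃ i : Fin k, nib p i = g x then some h.choose else none
  have hf : ∀ x (i : Fin k), f x = some i ↔ g x = nib p i := by
    intro x i
    by_cases hx : ∃ i : Fin k, nib p i = g x
    · have hfx : f x = some hx.choose := dif_pos hx
      have hc := hx.choose_spec
      rw [hfx]
      constructor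
      · intro h'
        rw [← Option.some.inj h']
        exact hc.symm
      · intro h'
        have := hinj _ _ hx.choose.2 i.2 (hc.trans h')
        rw [Fin.ext this]
    · have hfx : f x = none := dif_neg hx
      rw [hfx]
      constructor
      · intro h'
        exact absurd h' (by simp)
      · intro h'
        exact absurd ⟨i, h'.symm⟩ hx
  refine ⟨f, ?_, ?_⟩
  · intro i
    have : {x | f x = some i} = {x | g x = nib p i} := by
      ext x
      exact hf x i
    rw [this]
    exact (hg1 _ (hA i i.2)).2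
  · intro i j hij
    have hne : nib p i ≠ nib p j := by
      intro h'
      exact hij.ne (Fin.ext (hinj i j i.2 j.2 h'))
    obtain ⟨x, y, hx, hy, hxy⟩ := hg2 _ _ (hA i i.2) (hA j j.2) hne (hR i j i.2 j.2
      ((hH i j).1 hij))
    exact ⟨x, y, (hf x i).2 hx, (hf y j).2 hy, hxy⟩

theorem stage_init' {m R : ℕ} {G : SimpleGraph (Fin m)} (hm : m ≤ 10)
    (hG : ∀ x y : Fin m, R.testBit (16 * x + y) = true → G.Adj x y) : Stage G R (2 ^ m - 1) := by
  have hlt : ∀ a, (2 ^ m - 1).testBit a = true → a < m := by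
    intro a ha
    rw [Nat.testBit_two_pow_sub_one] at ha
    simpa using ha
  refine ⟨fun x => x, ?_, ?_⟩
  · intro a ha
    have ha' := hlt a ha
    refine ⟨by omega, ?_⟩
    exact conn_single (a := (⟨a, ha'⟩ : Fin m)) rfl (fun b hb => Fin.ext hb)
  · intro a b ha hb _ hR
    exact ⟨⟨a, hlt a ha⟩, ⟨b, hlt b hb⟩, rfl, rfl, hG _ _ hR⟩

end Pool.Agent.TW4.So
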